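import Pool.Agent.Lib.MP_ee3a40_co.Gadget

/-!
A clique with a gadget between each of its vertices and one more vertex.
-/

set_option autoImplicit false

open Polynomial

namespace Pool.Agent.Lib.MP_ee3a40_co

/-- the assembled graph -/
def bigG {N : ℕ} {U : Fin N → Type} (H : ∀ j, SimpleGraph (U j)) (S T : ∀ j, Set (U j)) :
    SimpleGraph (Option (Fin N) ⊕ (Σ j, U j)) where
  Adj := fun x y => match x, y with
    | Sum.inl (some j), Sum.inl (some l) => j ≠ l
    | Sum.inl none, Sum.inr p => p.2 ∈ T p.1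
    | Sum.inr p, Sum.inl none => p.2 ∈ T p.1
    | Sum.inl (some j), Sum.inr p => j = p.1 ∧ p.2 ∈ S p.1
    | Sum.inr p, Sum.inl (some j) => j = p.1 ∧ p.2 ∈ S p.1
    | Sum.inr p, Sum.inr p' => ∃ (j : Fin N) (u v : U j), p = ⟨j, u⟩ ∧ p' = ⟨j, v⟩ ∧ (H j).Adj u v
    | _, _ => False
  symm := ⟨fun x y h => match x, y, h with
    | Sum.inl (some _), Sum.inl (some _), h => Ne.symm h
    | Sum.inl none, Sum.inr _, h => h
    | Sum.inr _, Sum.inl none, h => h
    | Sum.inl (some _), Sum.inr _, h => h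
    | Sum.inr _, Sum.inl (some _), h => h
    | Sum.inr _, Sum.inr _, ⟨j, u, v, h1, h2, h3⟩ => ⟨j, v, u, h2, h1, h3.symm⟩⟩
  loopless := ⟨fun x h => match x, h with
    | Sum.inl (some _), h => h rfl
    | Sum.inr _, ⟨_, u, v, h1, h2, h3⟩ => by
      rw [h1] at h2
      have : u = v := by simpa using h2
      exact h3.ne this⟩

theorem card_big {N : ℕ} {U : Fin N → Type} [∀ j, Finite (U j)] (H : ∀ j, SimpleGraph (U j))
    (S T : ∀ j, Set (U j)) (C : Type) [Fintype C] [DecidableEq C] :
    Nat.card (Col (bigG H S T) C) =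
      ∑ φ : Fin N ↪ C, ∑ i : C, ∏ j, Nat.card (GCol (H j) (S j) (T j) C (φ j) i) := by
  have h1 : ∀ φ : Fin N ↪ C, ∀ i : C, ∏ j, Nat.card (GCol (H j) (S j) (T j) C (φ j) i) =
      Nat.card (∀ j, GCol (H j) (S j) (T j) C (φ j) i) := fun φ i => Nat.card_pi.symm
  have h2 : ∀ φ : Fin N ↪ C, ∑ i : C, ∏ j, Nat.card (GCol (H j) (S j) (T j) C (φ j) i) =
      Nat.card (Σ i : C, ∀ j, GCol (H j) (S j) (T j) C (φ j) i) := by
    intro φ
    rw [Nat.card_sigma]
    exact Finset.sum_congr rfl (fun i _ => h1 φ i)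
  rw [Finset.sum_congr rfl (fun φ _ => h2 φ), ← Nat.card_sigma]
  apply Nat.card_congr
  exact
    { toFun := fun f => ⟨⟨fun j => f.1 (Sum.inl (some j)), fun j l h => by
          by_contra hne
          exact f.2 (Sum.inl (some j)) (Sum.inl (some l)) hne h⟩,
        ⟨f.1 (Sum.inl none), fun j => ⟨fun u => f.1 (Sum.inr ⟨j, u⟩),
          fun u v h => f.2 _ _ ⟨j, u, v, rfl, rfl, h⟩,
          fun u hu => f.2 (Sum.inr ⟨j, u⟩) (Sum.inl (some j)) ⟨rfl, hu⟩,
          fun u hu => f.2 (Sum.inr ⟨j, u⟩) (Sum.inl none) hu⟩⟩⟩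
      invFun := fun p => ⟨fun x => match x with
        | Sum.inl none => p.2.1
        | Sum.inl (some j) => p.1 j
        | Sum.inr q => (p.2.2 q.1).1 q.2, by
        intro x y h
        match x, y, h with
        | Sum.inl (some j), Sum.inl (some l), h =>
          exact fun h' => h (p.1.injective h')
        | Sum.inl none, Sum.inr q, h => exact ((p.2.2 q.1).2.2.2 _ h).symm
        | Sum.inr q, Sum.inl none, h => exact (p.2.2 q.1).2.2.2 _ h
        | Sum.inl (some j), Sum.inr q, h =>
          obtain ⟨rfl, h⟩ := h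
          exact ((p.2.2 q.1).2.2.1 _ h).symm
        | Sum.inr q, Sum.inl (some j), h =>
          obtain ⟨rfl, h⟩ := h
          exact (p.2.2 q.1).2.2.1 _ h
        | Sum.inr q, Sum.inr q', ⟨j, u, v, h1, h2, h3⟩ =>
          subst h1 h2
          exact (p.2.2 j).2.1 _ _ h3⟩
      left_inv := by
        intro f
        apply Subtype.ext
        funext x
        rcases x with (_ | j) | ⟨j, u⟩ <;> rfl
      right_inv := fun p => rfl }

theorem sum_prod {N : ℕ} {C : Type} [Fintype C] [DecidableEq C] (φ : Fin N ↪ C)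
    (A B : Fin N → ℤ) :
    ∑ i : C, ∏ j, (if φ j = i then A j else B j) =
      (∑ j, ∏ l, (if l = j then A l else B l)) + ((Fintype.card C : ℤ) - N) * ∏ l, B l := by
  have h1 : ∑ i : C, ((∏ j, (if φ j = i then A j else B j)) - ∏ l, B l) =
      ∑ j, ((∏ l, (if l = j then A l else B l)) - ∏ l, B l) := by
    rw [← Finset.sum_subset (Finset.subset_univ (Finset.univ.map φ)), Finset.sum_map]
    · apply Finset.sum_congr rfl
      intro j _
      congr 1
      apply Finset.prod_congr rfl
      intro l _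
      by_cases h : l = j
      · simp [h]
      · rw [if_neg h, if_neg (fun h' => h (φ.injective h'))]
    · intro i _ hi
      have : ∀ j, ¬ φ j = i := by
        intro j hj
        exact hi (Finset.mem_map.2 ⟨j, Finset.mem_univ j, hj⟩)
      rw [sub_eq_zero]
      apply Finset.prod_congr rfl
      intro j _
      rw [if_neg (this j)]
  rw [Finset.sum_sub_distrib, Finset.sum_sub_distrib, Finset.sum_const, Finset.sum_const,
    Finset.card_univ, Finset.card_univ, Fintype.card_fin, nsmul_eq_mul, nsmul_eq_mul] at h1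
  linear_combination h1

theorem chrom_big {N : ℕ} {U : Fin N → Type} [∀ j, Finite (U j)] (H : ∀ j, SimpleGraph (U j))
    (S T : ∀ j, Set (U j)) (a b : Fin N → ℤ[X]) (h : ∀ j, IsGad (H j) (S j) (T j) (a j) (b j)) :
    IsChrom (bigG H S T) (descPochhammer ℤ N * ((∑ j, ∏ l, (if l = j then a l else b l)) +
      (X - C (N : ℤ)) * ∏ l, b l)) := by
  classical
  intro k
  rw [card_coloring, card_big]
  push_cast
  have h1 : ∀ (φ : Fin N ↪ Fin k) (i : Fin k), ∏ j, (Nat.card (GCol (H j) (S j) (T j)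
      (Fin k) (φ j) i) : ℤ) = ∏ j, (if φ j = i then (a j).eval (k : ℤ) else
        (b j).eval (k : ℤ)) := by
    intro φ i
    apply Finset.prod_congr rfl
    intro j _
    by_cases hj : φ j = i
    · rw [if_pos hj, hj, (h j).eq, Nat.card_eq_fintype_card, Fintype.card_fin]
    · rw [if_neg hj, (h j).ne _ _ _ hj, Nat.card_eq_fintype_card, Fintype.card_fin]
  have h2 : ∀ (φ : Fin N ↪ Fin k), ∑ i : Fin k, ∏ j, (Nat.card (GCol (H j) (S j) (T j)
      (Fin k) (φ j) i) : ℤ) = (∑ j, ∏ l, (if l = j then (a l).eval (k : ℤ) else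
        (b l).eval (k : ℤ))) + ((k : ℤ) - N) * ∏ l, (b l).eval (k : ℤ) := by
    intro φ
    rw [Finset.sum_congr rfl (fun i _ => h1 φ i), sum_prod, Fintype.card_fin]
  rw [Finset.sum_congr rfl (fun φ _ => h2 φ), Finset.sum_const, Finset.card_univ,
    Fintype.card_embedding_eq, Fintype.card_fin, Fintype.card_fin, nsmul_eq_mul, eval_mul,
    descPochhammer_eval_eq_descFactorial]
  congr 1
  rw [eval_add, eval_finset_sum, eval_mul, eval_prod, eval_sub, eval_X, eval_C]
  congr 1
  apply Finset.sum_congr rfl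
  intro j _
  rw [eval_prod]
  apply Finset.prod_congr rfl
  intro l _
  split_ifs <;> rfl

/-- If `∑ (r_j - 1) = -q` with ratios `r_j`, then `q` is a root of a chromatic polynomial. -/
theorem root_of_ratios {K : Type*} [Field K] {q : K} {N : ℕ} (r : Fin N → K)
    (hr : ∀ j, r j ∈ Rat' q) (hsum : ∑ j, (r j - 1) = -q) :
    ∃ (m : ℕ) (G : SimpleGraph (Fin m)) (P : ℤ[X]), IsChrom G P ∧ aeval q P = 0 := by
  classical
  choose a b hg hb ha using hr
  choose U hfin H S T hU using hg
  have hc := chrom_big H S T a b hU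
  obtain ⟨m, ⟨e⟩⟩ : ∃ m, Nonempty ((Option (Fin N) ⊕ (Σ j, U j)) ≃ Fin m) :=
    ⟨_, ⟨Finite.equivFin _⟩⟩
  refine ⟨m, (bigG H S T).comap e.symm, _, hc.congr e ?_, ?_⟩
  · intro u v
    simp
  · rw [map_mul, map_add, map_sum, map_mul, map_prod, map_sub, aeval_X, aeval_C]
    have h1 : ∀ j, aeval q (∏ l, (if l = j then a l else b l)) = r j * ∏ l, aeval q (b l) := by
      intro j
      rw [map_prod]
      have h2 : ∀ l, aeval q (if l = j then a l else b l) =
          (if l = j then r j else 1) * aeval q (b l) := by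
        intro l
        by_cases h : l = j
        · rw [if_pos h, if_pos h, h]; exact ha j
        · rw [if_neg h, if_neg h, one_mul]
      rw [Finset.prod_congr rfl (fun l _ => h2 l), Finset.prod_mul_distrib,
        Finset.prod_ite_eq' Finset.univ, if_pos (Finset.mem_univ _)]
    rw [Finset.sum_congr rfl (fun j _ => h1 j), ← Finset.sum_mul]
    have h3 : ∑ j, r j = (N : K) - q := by
      rw [Finset.sum_sub_distrib, Finset.sum_const, Finset.card_univ, Fintype.card_fin,
        nsmul_eq_mul, mul_one] at hsum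
      linear_combination hsum
    rw [h3]
    simp only [eq_intCast, Int.cast_natCast]
    ring

end Pool.Agent.Lib.MP_ee3a40_co
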