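import Mathlib

/-!
Chromatic polynomials: existence, being monic, signs on the real line.
-/

set_option autoImplicit false

open Polynomial

namespace Pool.Agent.Lib.MP_ee3a40_co

universe u

/-- `P` is the chromatic polynomial of `G` -/
def IsChrom {V : Type u} (G : SimpleGraph V) (P : ℤ[X]) : Prop :=
  ∀ k : ℕ, P.eval (k : ℤ) = (Nat.card (G.Coloring (Fin k)) : ℤ)

/-- proper colourings as functions -/
def Col {V : Type u} (G : SimpleGraph V) (C : Type) : Type u :=
  {f : V → C // ∀ u v, G.Adj u v → f u ≠ f v}

theorem card_coloring {V : Type u} (G : SimpleGraph V) (C : Type) :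
    Nat.card (G.Coloring C) = Nat.card (Col G C) :=
  Nat.card_congr
    { toFun := fun c => ⟨fun v => c v, fun _ _ h => c.valid h⟩
      invFun := fun f => SimpleGraph.Coloring.mk f.1 (fun {u v} h => f.2 u v h)
      left_inv := fun c => by ext v; rfl
      right_inv := fun f => rfl }

theorem IsChrom.unique {V : Type u} {G : SimpleGraph V} {P Q : ℤ[X]} (hP : IsChrom G P)
    (hQ : IsChrom G Q) : P = Q := by
  apply Polynomial.eq_of_infinite_eval_eq
  apply Set.infinite_of_injective_forall_mem (f := fun k : ℕ => (k : ℤ)) Nat.cast_injective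
  intro k
  exact (hP k).trans (hQ k).symm

/-- polynomials agreeing at all natural numbers are equal -/
theorem poly_ext {P Q : ℤ[X]} (h : ∀ k : ℕ, P.eval (k : ℤ) = Q.eval (k : ℤ)) : P = Q := by
  apply Polynomial.eq_of_infinite_eval_eq
  apply Set.infinite_of_injective_forall_mem (f := fun k : ℕ => (k : ℤ)) Nat.cast_injective
  intro k
  exact h k

theorem card_col_congr {V V' : Type u} {G : SimpleGraph V} {G' : SimpleGraph V'} (e : V ≃ V')
    (h : ∀ u v, G.Adj u v ↔ G'.Adj (e u) (e v)) (C : Type) :
    Nat.card (Col G C) = Nat.card (Col G' C) :=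
  Nat.card_congr
    { toFun := fun f => ⟨fun v => f.1 (e.symm v), fun u v huv => f.2 _ _ (by
        rw [h]; simpa using huv)⟩
      invFun := fun f => ⟨fun v => f.1 (e v), fun u v huv => f.2 _ _ ((h u v).1 huv)⟩
      left_inv := fun f => by
        apply Subtype.ext; funext v; simp
      right_inv := fun f => by
        apply Subtype.ext; funext v; simp }

theorem IsChrom.congr {V V' : Type u} {G : SimpleGraph V} {G' : SimpleGraph V'} (e : V ≃ V')
    (h : ∀ u v, G.Adj u v ↔ G'.Adj (e u) (e v)) {P : ℤ[X]} (hP : IsChrom G P) :
    IsChrom G' P := by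
  intro k
  rw [hP k, card_coloring, card_coloring, card_col_congr e h]

/-- add a new vertex adjacent to `N` -/
def extG {W : Type u} (H : SimpleGraph W) (N : Finset W) : SimpleGraph (Option W) where
  Adj := fun a b => match a, b with
    | none, none => False
    | none, some w => w ∈ N
    | some w, none => w ∈ N
    | some w, some w' => H.Adj w w'
  symm := ⟨fun a b h => match a, b, h with
    | none, some _, h => h
    | some _, none, h => h
    | some _, some _, h => SimpleGraph.Adj.symm (G := H) h⟩
  loopless := ⟨fun a h => match a, h with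
    | some _, h => H.irrefl h⟩

/-- make `w` adjacent to `N` -/
def starG {W : Type u} (w : W) (N : Finset W) : SimpleGraph W where
  Adj := fun a b => a ≠ b ∧ ((a = w ∧ b ∈ N) ∨ (b = w ∧ a ∈ N))
  symm := ⟨fun _ _ h => ⟨h.1.symm, h.2.symm⟩⟩
  loopless := ⟨fun _ h => h.1 rfl⟩

theorem card_split {α : Type u} [Finite α] (P Q : α → Prop) :
    Nat.card {x // P x} = Nat.card {x // P x ∧ Q x} + Nat.card {x // P x ∧ ¬ Q x} := by
  classical
  have := Fintype.ofFinite α
  rw [Nat.card_eq_fintype_card, Nat.card_eq_fintype_card, Nat.card_eq_fintype_card,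
    Fintype.card_subtype, Fintype.card_subtype, Fintype.card_subtype,
    ← Finset.card_filter_add_card_filter_not (s := Finset.univ.filter P) Q,
    Finset.filter_filter, Finset.filter_filter]

theorem card_ext_empty {W : Type u} [Finite W] (H : SimpleGraph W) (k : ℕ) :
    Nat.card (Col (extG H ∅) (Fin k)) = k * Nat.card (Col H (Fin k)) := by
  have : Nat.card (Col (extG H ∅) (Fin k)) = Nat.card (Fin k × Col H (Fin k)) :=
    Nat.card_congr
      { toFun := fun f => (f.1 none, ⟨fun w => f.1 (some w), fun u v h => f.2 _ _ h⟩)
        invFun := fun p => ⟨fun a => match a with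
          | none => p.1
          | some w => p.2.1 w, fun a b h => by
            cases a <;> cases b
            · exact absurd h id
            · exact absurd h (Finset.notMem_empty _)
            · exact absurd h (Finset.notMem_empty _)
            · exact p.2.2 _ _ h⟩
        left_inv := fun f => by
          apply Subtype.ext; funext a; cases a <;> rfl
        right_inv := fun p => rfl }
  rw [this, Nat.card_prod, Nat.card_eq_fintype_card, Fintype.card_fin]

theorem card_ext_insert {W : Type u} [Finite W] [DecidableEq W] (H : SimpleGraph W)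
    (N : Finset W) (w : W) (hw : w ∉ N) (k : ℕ) :
    Nat.card (Col (extG H N) (Fin k)) = Nat.card (Col (extG H (insert w N)) (Fin k)) +
      Nat.card (Col (H ⊔ starG w N) (Fin k)) := by
  have h1 := card_split (α := Option W → Fin k)
    (fun f => ∀ u v, (extG H N).Adj u v → f u ≠ f v) (fun f => f none ≠ f (some w))
  have e1 : Nat.card (Col (extG H (insert w N)) (Fin k)) =
      Nat.card {f : Option W → Fin k // (∀ u v, (extG H N).Adj u v → f u ≠ f v) ∧
        f none ≠ f (some w)} := by
    apply Nat.card_congr
    apply Equiv.subtypeEquivRight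
    intro f
    constructor
    · intro h
      refine ⟨?_, ?_⟩
      · intro u v huv
        apply h
        cases u <;> cases v
        · exact huv
        · exact Finset.mem_insert_of_mem huv
        · exact Finset.mem_insert_of_mem huv
        · exact huv
      · exact h none (some w) (Finset.mem_insert_self w N)
    · rintro ⟨h, h2⟩ u v huv
      cases u with
      | none =>
        cases v with
        | none => exact absurd huv id
        | some v =>
          rcases Finset.mem_insert.1 huv with rfl | h3
          · exact h2
          · exact h _ _ h3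
      | some u =>
        cases v with
        | none =>
          rcases Finset.mem_insert.1 huv with rfl | h3
          · exact h2.symm
          · exact h _ _ h3
        | some v => exact h _ _ huv
  have e2 : Nat.card (Col (H ⊔ starG w N) (Fin k)) =
      Nat.card {f : Option W → Fin k // (∀ u v, (extG H N).Adj u v → f u ≠ f v) ∧
        ¬ (f none ≠ f (some w))} := by
    apply Nat.card_congr
    refine
      { toFun := fun f => ⟨fun a => match a with
          | none => f.1 w
          | some v => f.1 v, ?_⟩
        invFun := fun f => ⟨fun v => f.1 (some v), ?_⟩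
        left_inv := ?_
        right_inv := ?_ }
    · refine ⟨?_, by simp⟩
      intro a b hab
      cases a with
      | none =>
        cases b with
        | none => exact absurd hab id
        | some b =>
          apply f.2
          have hne : w ≠ b := by rintro rfl; exact hw hab
          exact Or.inr ⟨hne, Or.inl ⟨rfl, hab⟩⟩
      | some a =>
        cases b with
        | none =>
          apply f.2
          have hne : a ≠ w := by rintro rfl; exact hw hab
          exact Or.inr ⟨hne, Or.inr ⟨rfl, hab⟩⟩
        | some b => exact f.2 _ _ (Or.inl hab)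
    · intro u v huv
      have hf := f.2.1
      have hf2 : f.1 none = f.1 (some w) := by
        have := f.2.2
        push Not at this
        exact this
      rcases huv with huv | ⟨hne, (⟨rfl, hv⟩ | ⟨rfl, hu⟩)⟩
      · exact hf _ _ huv
      · change f.1 (some u) ≠ f.1 (some v)
        rw [← hf2]; exact hf none (some v) hv
      · change f.1 (some u) ≠ f.1 (some v)
        rw [← hf2]; exact hf (some u) none hu
    · intro f; rfl
    · intro f
      apply Subtype.ext
      funext a
      cases a with
      | none =>
        have := f.2.2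
        push Not at this
        exact this.symm
      | some a => rfl
  rw [e1, e2]
  exact h1

/-- every graph is obtained by adding a vertex -/
theorem chrom_of_ext {V : Type u} [Finite V] (G : SimpleGraph V) (v : V) {P : ℤ[X]}
    (h : IsChrom (extG (G.comap (Subtype.val : {w // w ≠ v} → V))
      (Set.toFinite {w : {w // w ≠ v} | G.Adj v w.1}).toFinset) P) : IsChrom G P := by
  classical
  refine h.congr (Equiv.optionSubtypeNe v) ?_
  intro a b
  cases a with
  | none =>
    cases b with
    | none => simp [extG]
    | some b => simp [extG]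
  | some a =>
    cases b with
    | none => simp [extG, SimpleGraph.adj_comm]
    | some b => simp [extG]

theorem nat_card_ne {V : Type u} [Finite V] (v : V) {n : ℕ} (h : Nat.card V = n + 1) :
    Nat.card {w // w ≠ v} = n := by
  classical
  have := Fintype.ofFinite V
  rw [Nat.card_eq_fintype_card] at h ⊢
  rw [Fintype.card_subtype_compl, Fintype.card_subtype_eq, h]
  rfl

theorem chrom_of_isEmpty {V : Type u} [IsEmpty V] (G : SimpleGraph V) : IsChrom G 1 := by
  intro k
  rw [card_coloring]
  have : Nat.card (Col G (Fin k)) = 1 := by
    rw [Nat.card_eq_one_iff_unique]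
    refine ⟨⟨fun f g => ?_⟩, ⟨⟨fun v => isEmptyElim v, fun v => isEmptyElim v⟩⟩⟩
    apply Subtype.ext
    funext v
    exact isEmptyElim v
  rw [this]
  simp

theorem chrom_ext_empty {W : Type u} [Finite W] {H : SimpleGraph W} {P : ℤ[X]}
    (h : IsChrom H P) : IsChrom (extG H ∅) (X * P) := by
  intro k
  rw [card_coloring, card_ext_empty, eval_mul, eval_X, h k, card_coloring]
  push_cast
  rfl

theorem chrom_ext_insert {W : Type u} [Finite W] [DecidableEq W] {H : SimpleGraph W}
    {N : Finset W} {w : W} (hw : w ∉ N) {P Q : ℤ[X]} (h : IsChrom (extG H N) P)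
    (h' : IsChrom (H ⊔ starG w N) Q) : IsChrom (extG H (insert w N)) (P - Q) := by
  intro k
  rw [eval_sub, h k, h' k, card_coloring, card_coloring, card_coloring,
    card_ext_insert H N w hw k]
  push_cast
  ring

theorem exists_chrom_ext {W : Type u} [Finite W] {n : ℕ}
    (ih : ∀ H : SimpleGraph W, ∃ P : ℤ[X], IsChrom H P ∧ P.Monic ∧ P.natDegree = n)
    (H : SimpleGraph W) (N : Finset W) :
    ∃ P : ℤ[X], IsChrom (extG H N) P ∧ P.Monic ∧ P.natDegree = n + 1 := by
  classical
  induction N using Finset.induction_on with
  | empty =>
    obtain ⟨P, h1, h2, h3⟩ := ih H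
    refine ⟨X * P, chrom_ext_empty h1, monic_X.mul h2, ?_⟩
    rw [monic_X.natDegree_mul h2, natDegree_X, h3, add_comm]
  | insert w N hw ihN =>
    obtain ⟨P, h1, h2, h3⟩ := ihN
    obtain ⟨Q, h1', h2', h3'⟩ := ih (H ⊔ starG w N)
    refine ⟨P - Q, chrom_ext_insert hw h1 h1', ?_, ?_⟩
    · apply h2.sub_of_left
      rw [degree_eq_natDegree h2.ne_zero, degree_eq_natDegree h2'.ne_zero, h3, h3']
      exact_mod_cast Nat.lt_succ_self n
    · rw [natDegree_sub_eq_left_of_natDegree_lt, h3]
      rw [h3, h3']; exact Nat.lt_succ_self n

/-- every finite graph has a monic chromatic polynomial of the right degree -/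
theorem exists_chrom_aux (n : ℕ) : ∀ (V : Type u) [Finite V] (G : SimpleGraph V),
    Nat.card V = n → ∃ P : ℤ[X], IsChrom G P ∧ P.Monic ∧ P.natDegree = n := by
  induction n with
  | zero =>
    intro V _ G hV
    have : IsEmpty V := by
      rcases Nat.card_eq_zero.1 hV with h | h
      · exact h
      · exact absurd h (not_infinite_iff_finite.2 inferInstance)
    exact ⟨1, chrom_of_isEmpty G, monic_one, natDegree_one⟩
  | succ n ih =>
    intro V _ G hV
    have hne : Nonempty V := by
      by_contra h
      rw [not_nonempty_iff] at h
      rw [Nat.card_of_isEmpty] at hV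
      omega
    obtain ⟨v⟩ := hne
    obtain ⟨P, h1, h2, h3⟩ := exists_chrom_ext (W := {w // w ≠ v})
      (fun H => ih _ H (nat_card_ne v hV))
      (G.comap Subtype.val) (Set.toFinite {w : {w // w ≠ v} | G.Adj v w.1}).toFinset
    exact ⟨P, chrom_of_ext G v h1, h2, h3⟩

theorem exists_chrom {V : Type u} [Finite V] (G : SimpleGraph V) :
    ∃ P : ℤ[X], IsChrom G P ∧ P.Monic ∧ P.natDegree = Nat.card V :=
  exists_chrom_aux _ V G rfl

/-- signs on the negative axis -/
theorem sign_neg (x : ℝ) (hx : x < 0) (n : ℕ) : ∀ (V : Type u) [Finite V] (G : SimpleGraph V)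
    (P : ℤ[X]), Nat.card V = n → IsChrom G P → 0 < (-1) ^ n * aeval x P := by
  induction n with
  | zero =>
    intro V _ G P hV hP
    have : IsEmpty V := by
      rcases Nat.card_eq_zero.1 hV with h | h
      · exact h
      · exact absurd h (not_infinite_iff_finite.2 inferInstance)
    rw [hP.unique (chrom_of_isEmpty G)]
    simp
  | succ n ih =>
    intro V _ G P hV hP
    classical
    have hne : Nonempty V := by
      by_contra h
      rw [not_nonempty_iff] at h
      rw [Nat.card_of_isEmpty] at hV
      omega
    obtain ⟨v⟩ := hne
    have key : ∀ (H : SimpleGraph {w // w ≠ v}) (N : Finset {w // w ≠ v}) (Q : ℤ[X]),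
        IsChrom (extG H N) Q → 0 < (-1) ^ (n + 1) * aeval x Q := by
      intro H N
      induction N using Finset.induction_on with
      | empty =>
        intro Q hQ
        obtain ⟨R, hR, -, -⟩ := exists_chrom H
        rw [hQ.unique (chrom_ext_empty hR), map_mul, aeval_X]
        have := ih _ H R (nat_card_ne v hV) hR
        rw [pow_succ]
        nlinarith
      | insert w N hw ihN =>
        intro Q hQ
        obtain ⟨R, hR, -, -⟩ := exists_chrom (extG H N)
        obtain ⟨S, hS, -, -⟩ := exists_chrom (H ⊔ starG w N)
        rw [hQ.unique (chrom_ext_insert hw hR hS), map_sub]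
        have h1 := ihN R hR
        have h2 := ih _ _ S (nat_card_ne v hV) hS
        rw [pow_succ] at h1 ⊢
        nlinarith
    obtain ⟨R, hR, -, -⟩ := exists_chrom (extG (G.comap (Subtype.val : {w // w ≠ v} → V))
      (Set.toFinite {w : {w // w ≠ v} | G.Adj v w.1}).toFinset)
    rw [hP.unique (chrom_of_ext G v hR)]
    exact key _ _ R hR

/-- signs on the interval `(0,1)` -/
theorem sign_unit (x : ℝ) (hx : 0 < x) (hx1 : x < 1) (n : ℕ) :
    ∀ (V : Type u) [Finite V] (G : SimpleGraph V)
    (P : ℤ[X]), Nat.card V = n + 1 → G.Connected → IsChrom G P →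
      0 < (-1) ^ n * aeval x P := by
  induction n with
  | zero =>
    intro V _ G P hV hG hP
    classical
    obtain ⟨v⟩ := hG.nonempty
    have hemp : IsEmpty {w // w ≠ v} := by
      have := nat_card_ne v hV
      rcases Nat.card_eq_zero.1 this with h | h
      · exact h
      · exact absurd h (not_infinite_iff_finite.2 inferInstance)
    have h1 : IsChrom G (X * 1) := by
      apply chrom_of_ext G v
      have : (Set.toFinite {w : {w // w ≠ v} | G.Adj v w.1}).toFinset = ∅ := by
        ext w; exact isEmptyElim w
      rw [this]
      exact chrom_ext_empty (chrom_of_isEmpty _)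
    rw [hP.unique h1]
    simpa using hx
  | succ n ih =>
    intro V _ G P hV hG hP
    classical
    have hnt : Nontrivial V := by
      have := Fintype.ofFinite V
      rw [Nat.card_eq_fintype_card] at hV
      exact Fintype.one_lt_card_iff_nontrivial.1 (by omega)
    obtain ⟨v, hv⟩ := hG.exists_connected_induce_compl_singleton_of_finite_nontrivial
    have hH : (G.comap (Subtype.val : {w // w ≠ v} → V)).Connected := hv
    have key : ∀ (H : SimpleGraph {w // w ≠ v}), H.Connected → ∀ (N : Finset {w // w ≠ v})
        (Q : ℤ[X]), IsChrom (extG H N) Q → N.Nonempty → 0 < (-1) ^ (n + 1) * aeval x Q := by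
      intro H hHc N
      induction N using Finset.induction_on with
      | empty => intro Q _ h; exact absurd h (by simp)
      | insert w N hw ihN =>
        intro Q hQ _
        obtain ⟨R, hR, -, -⟩ := exists_chrom (extG H N)
        obtain ⟨S, hS, -, -⟩ := exists_chrom (H ⊔ starG w N)
        have h2 := ih _ _ S (nat_card_ne v hV) (hHc.mono le_sup_left) hS
        rw [hQ.unique (chrom_ext_insert hw hR hS), map_sub]
        rcases N.eq_empty_or_nonempty with rfl | hN
        · have e : H ⊔ starG w ∅ = H := by
            ext a b
            simp [starG]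
          rw [e] at hS
          rw [hR.unique (chrom_ext_empty hS), map_mul, aeval_X, pow_succ]
          nlinarith
        · have h1 := ihN R hR hN
          rw [pow_succ] at h1 ⊢
          nlinarith
    obtain ⟨R, hR, -, -⟩ := exists_chrom (extG (G.comap (Subtype.val : {w // w ≠ v} → V))
      (Set.toFinite {w : {w // w ≠ v} | G.Adj v w.1}).toFinset)
    rw [hP.unique (chrom_of_ext G v hR)]
    refine key _ hH _ R hR ?_
    -- `v` has a neighbour
    obtain ⟨w, hw⟩ := exists_ne v
    obtain ⟨p⟩ := hG.preconnected v w
    cases p with
    | nil => exact absurd rfl hw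
    | @cons _ u _ h _ =>
      refine ⟨⟨u, h.ne.symm⟩, ?_⟩
      simpa using h

/-- the chromatic polynomial of a disjoint union -/
theorem chrom_mul {V : Type u} [Finite V] (G : SimpleGraph V) (s : Set V)
    (hs : ∀ a b, G.Adj a b → (a ∈ s ↔ b ∈ s)) {P Q : ℤ[X]}
    (hP : IsChrom (G.comap (Subtype.val : {a // a ∈ s} → V)) P)
    (hQ : IsChrom (G.comap (Subtype.val : {a // ¬ a ∈ s} → V)) Q) : IsChrom G (P * Q) := by
  classical
  intro k
  rw [eval_mul, hP k, hQ k, card_coloring, card_coloring, card_coloring, ← Nat.cast_mul,
    ← Nat.card_prod]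
  congr 1
  apply Nat.card_congr
  exact
    { toFun := fun p => ⟨fun a => if h : a ∈ s then p.1.1 ⟨a, h⟩ else p.2.1 ⟨a, h⟩, by
        intro a b hab
        by_cases ha : a ∈ s
        · have hb := (hs a b hab).1 ha
          simp only [ha, hb, dif_pos]
          exact p.1.2 ⟨a, ha⟩ ⟨b, hb⟩ hab
        · have hb : ¬ b ∈ s := fun hb => ha ((hs a b hab).2 hb)
          simp only [ha, hb]
          exact p.2.2 ⟨a, ha⟩ ⟨b, hb⟩ hab⟩
      invFun := fun f => (⟨fun a => f.1 a.1, fun a b h => f.2 _ _ h⟩,
        ⟨fun a => f.1 a.1, fun a b h => f.2 _ _ h⟩)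
      left_inv := by
        rintro ⟨⟨f, hf⟩, ⟨g, hg⟩⟩
        apply Prod.ext
        · apply Subtype.ext
          funext a
          simp [a.2]
        · apply Subtype.ext
          funext a
          simp [a.2]
      right_inv := by
        intro f
        apply Subtype.ext
        funext a
        by_cases ha : a ∈ s <;> simp [ha] }

/-- a real root of a chromatic polynomial is `0` or at least `1` -/
theorem real_root (x : ℝ) (n : ℕ) : ∀ (V : Type u) [Finite V] (G : SimpleGraph V) (P : ℤ[X]),
    Nat.card V = n → IsChrom G P → aeval x P = 0 → x = 0 ∨ 1 ≤ x := by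
  induction n using Nat.strong_induction_on with
  | _ n ih =>
    intro V _ G P hV hP hx
    by_contra hcon
    push Not at hcon
    obtain ⟨hx0, hx1⟩ := hcon
    rcases lt_or_gt_of_ne hx0 with hneg | hpos
    · have := sign_neg x hneg n V G P hV hP
      rw [hx, mul_zero] at this
      exact lt_irrefl _ this
    · by_cases hG : G.Connected
      · have hne : Nonempty V := hG.nonempty
        have hpos' : 0 < Nat.card V := Nat.card_pos
        obtain ⟨m, hm⟩ : ∃ m, n = m + 1 := ⟨n - 1, by omega⟩
        have := sign_unit x hpos hx1 m V G P (hV.trans hm) hG hP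
        rw [hx, mul_zero] at this
        exact lt_irrefl _ this
      · by_cases hemp : IsEmpty V
        · rw [hP.unique (chrom_of_isEmpty G)] at hx
          simp at hx
        · rw [not_isEmpty_iff] at hemp
          have hnp : ¬ G.Preconnected := fun h => hG ⟨h⟩
          unfold SimpleGraph.Preconnected at hnp
          push Not at hnp
          obtain ⟨u, v, huv⟩ := hnp
          let s : Set V := {w | G.Reachable u w}
          have hu : u ∈ s := SimpleGraph.Reachable.refl u
          have hv : v ∉ s := huv
          have hs : ∀ a b, G.Adj a b → (a ∈ s ↔ b ∈ s) := by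
            intro a b hab
            exact ⟨fun h => SimpleGraph.Reachable.trans h hab.reachable,
              fun h => SimpleGraph.Reachable.trans h hab.symm.reachable⟩
          obtain ⟨P1, hP1, -, -⟩ := exists_chrom (G.comap (Subtype.val : {a // a ∈ s} → V))
          obtain ⟨P2, hP2, -, -⟩ := exists_chrom (G.comap (Subtype.val : {a // ¬ a ∈ s} → V))
          rw [hP.unique (chrom_mul G s hs hP1 hP2), map_mul, mul_eq_zero] at hx
          have hcard : Nat.card {a // a ∈ s} + Nat.card {a // ¬ a ∈ s} = n := by
            classical
            have := Fintype.ofFinite V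
            rw [← hV, Nat.card_eq_fintype_card, Nat.card_eq_fintype_card,
              Nat.card_eq_fintype_card]
            have h1 := Fintype.card_subtype_compl (fun a => a ∈ s)
            have h2 := Fintype.card_subtype_le (fun a => a ∈ s)
            omega
          have hc1 : 0 < Nat.card {a // a ∈ s} := by
            have : Nonempty {a // a ∈ s} := ⟨⟨u, hu⟩⟩
            exact Nat.card_pos
          have hc2 : 0 < Nat.card {a // ¬ a ∈ s} := by
            have : Nonempty {a // ¬ a ∈ s} := ⟨⟨v, hv⟩⟩
            exact Nat.card_pos
          rcases hx with hx | hx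
          · rcases ih _ (by omega) _ _ P1 rfl hP1 hx with h | h
            · exact hx0 h
            · exact absurd hx1 (not_lt.2 h)
          · rcases ih _ (by omega) _ _ P2 rfl hP2 hx with h | h
            · exact hx0 h
            · exact absurd hx1 (not_lt.2 h)

end Pool.Agent.Lib.MP_ee3a40_co
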