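import Mathlib

/-!
Real valued rational linear functionals on a number field as combinations of embeddings.
-/

set_option autoImplicit false

open ComplexConjugate

namespace Pool.Agent.Lib.MP_ee3a40_co

variable {K : Type*} [Field K] [Algebra ℚ K]

/-- the conjugate embedding -/
noncomputable def conjA (σ : K →ₐ[ℚ] ℂ) : K →ₐ[ℚ] ℂ :=
  ((Complex.conjAe : ℂ →ₐ[ℝ] ℂ).restrictScalars ℚ).comp σ

@[simp] theorem conjA_apply (σ : K →ₐ[ℚ] ℂ) (x : K) : conjA σ x = conj (σ x) := rfl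

@[simp] theorem conjA_conjA (σ : K →ₐ[ℚ] ℂ) : conjA (conjA σ) = σ := by
  ext x
  simp

variable [FiniteDimensional ℚ K]

theorem exists_coeffs0 (Λ : K →ₗ[ℚ] ℂ) :
    ∃ c : (K →ₐ[ℚ] ℂ) → ℂ, ∀ x, Λ x = ∑ σ, c σ * σ x := by
  have hli := linearIndependent_toLinearMap ℚ K ℂ
  have hcard : Fintype.card (K →ₐ[ℚ] ℂ) = Module.finrank ℂ (K →ₗ[ℚ] ℂ) := by
    rw [Module.finrank_linearMap_self, ← AlgHom.card ℚ K ℂ]
  have hspan := hli.span_eq_top_of_card_eq_finrank' hcard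
  have hmem : Λ ∈ Submodule.span ℂ (Set.range (AlgHom.toLinearMap : (K →ₐ[ℚ] ℂ) → K →ₗ[ℚ] ℂ)) := by
    rw [hspan]; exact Submodule.mem_top
  rw [Submodule.mem_span_range_iff_exists_fun] at hmem
  obtain ⟨c, hc⟩ := hmem
  refine ⟨c, fun x => ?_⟩
  rw [← hc]
  simp [LinearMap.sum_apply]

theorem exists_coeffs (Λ : K →ₗ[ℚ] ℝ) :
    ∃ c : (K →ₐ[ℚ] ℂ) → ℂ, (∀ σ, c (conjA σ) = conj (c σ)) ∧
      ∀ x, Λ x = ∑ σ, (c σ * σ x).re := by
  obtain ⟨c, hc⟩ := exists_coeffs0 ((Complex.ofRealCLM.toLinearMap.restrictScalars ℚ) ∘ₗ Λ)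
  have h1 : ∀ x, Λ x = ∑ σ, (c σ * σ x).re := by
    intro x
    have := hc x
    have h2 := congrArg Complex.re this
    rw [Complex.re_sum] at h2
    rw [← h2]
    rfl
  refine ⟨fun σ => (c σ + conj (c (conjA σ))) / 2, ?_, ?_⟩
  · intro σ
    simp only [conjA_conjA, map_div₀, map_add, Complex.conj_conj, map_ofNat]
    ring
  · intro x
    have h3 : ∀ σ : K →ₐ[ℚ] ℂ, ((c σ + conj (c (conjA σ))) / 2 * σ x).re =
        ((c σ * σ x).re + (c (conjA σ) * (conjA σ) x).re) / 2 := by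
      intro σ
      rw [conjA_apply]
      have : (c σ + conj (c (conjA σ))) / 2 * σ x = (c σ * σ x + conj (c (conjA σ)) * σ x) / 2 := by
        ring
      rw [this, Complex.div_ofNat_re, Complex.add_re]
      congr 2
      simp only [Complex.mul_re, Complex.conj_re, Complex.conj_im]
      ring
    rw [Finset.sum_congr rfl (fun σ _ => h3 σ), ← Finset.sum_div, Finset.sum_add_distrib, h1 x]
    have h4 : ∑ σ : K →ₐ[ℚ] ℂ, (c (conjA σ) * (conjA σ) x).re = ∑ σ, (c σ * σ x).re := by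
      let e : (K →ₐ[ℚ] ℂ) ≃ (K →ₐ[ℚ] ℂ) := ⟨conjA, conjA, conjA_conjA, conjA_conjA⟩
      exact Equiv.sum_comp e (fun σ => (c σ * σ x).re)
    rw [h4]
    ring

end Pool.Agent.Lib.MP_ee3a40_co
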