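import Mathlib

/-!
A rational convex cone on which no nonzero real functional is nonnegative is everything.
-/

set_option autoImplicit false

open Filter Topology

namespace Pool.Agent.Lib.MP_ee3a40_co

/-- coordinatewise cast -/
def cst {n : ℕ} (x : Fin n → ℚ) : Fin n → ℝ := fun i => (x i : ℝ)

/-- a rational cone -/
structure RCone {n : ℕ} (C : Set (Fin n → ℚ)) : Prop where
  zero : 0 ∈ C
  add : ∀ {x y}, x ∈ C → y ∈ C → x + y ∈ C
  smul : ∀ {q : ℚ} {x}, 0 < q → x ∈ C → q • x ∈ C

theorem RCone.dense_univ (n : ℕ) : ∀ {C : Set (Fin n → ℚ)}, RCone C → Dense (cst '' C) →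
    ∀ x, x ∈ C := by
  induction n with
  | zero =>
    intro C hC _ x
    have : x = 0 := by funext i; exact i.elim0
    rw [this]; exact hC.zero
  | succ n ih =>
    intro C hC hd x
    let D : Set (Fin n → ℚ) := {y | Fin.cons 0 y ∈ C}
    have cons_add : ∀ (a b : ℚ) (y z : Fin n → ℚ), (Fin.cons (a + b) (y + z) : Fin (n + 1) → ℚ) =
        Fin.cons a y + Fin.cons b z := by
      intro a b y z
      funext i
      refine Fin.cases ?_ (fun j => ?_) i <;> simp
    have cons_smul : ∀ (q a : ℚ) (y : Fin n → ℚ), (Fin.cons (q * a) (q • y) : Fin (n + 1) → ℚ) =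
        q • Fin.cons a y := by
      intro q a y
      funext i
      refine Fin.cases ?_ (fun j => ?_) i <;> simp
    have cons_self : ∀ y : Fin (n + 1) → ℚ, Fin.cons (y 0) (fun i => y i.succ) = y := by
      intro y
      funext i
      refine Fin.cases ?_ (fun j => ?_) i <;> simp
    have hD : RCone D := by
      refine ⟨?_, ?_, ?_⟩
      · change Fin.cons 0 0 ∈ C
        have : (Fin.cons 0 0 : Fin (n + 1) → ℚ) = 0 := by
          funext i
          refine Fin.cases ?_ (fun j => ?_) i <;> simp
        rw [this]; exact hC.zero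
      · intro y z hy hz
        change Fin.cons 0 (y + z) ∈ C
        have := cons_add 0 0 y z
        rw [add_zero] at this
        rw [this]
        exact hC.add hy hz
      · intro q y hq hy
        change Fin.cons 0 (q • y) ∈ C
        have := cons_smul q 0 y
        rw [mul_zero] at this
        rw [this]
        exact hC.smul hq hy
    rw [Metric.dense_iff] at hd
    have hDd : Dense (cst '' D) := by
      rw [Metric.dense_iff]
      intro d r hr
      obtain ⟨u, hu, cu, hcu, rfl⟩ := hd (Fin.cons (r / 2) d) (r / 4) (by positivity)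
      obtain ⟨v, hv, cv, hcv, rfl⟩ := hd (Fin.cons (-(r / 2)) d) (r / 4) (by positivity)
      rw [Metric.mem_ball, dist_pi_lt_iff (by positivity)] at hu hv
      have hu0 := hu 0
      have hv0 := hv 0
      rw [Fin.cons_zero, Real.dist_eq, abs_lt] at hu0 hv0
      have hpos : 0 < cu 0 := by
        have : (0 : ℝ) < (cu 0 : ℝ) := by
          have := hu0.1
          simp only [cst] at this
          linarith
        exact_mod_cast this
      have hneg : cv 0 < 0 := by
        have : ((cv 0 : ℚ) : ℝ) < 0 := by
          have := hv0.2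
          simp only [cst] at this
          linarith
        exact_mod_cast this
      let s : ℚ := cu 0 / (cu 0 - cv 0)
      let t : ℚ := -cv 0 / (cu 0 - cv 0)
      have hs : 0 < s := div_pos hpos (by linarith)
      have ht : 0 < t := div_pos (by linarith) (by linarith)
      have hst : s + t = 1 := by
        simp only [s, t]
        rw [← add_div, ← sub_eq_add_neg, div_self (by linarith)]
      have hz : t * cu 0 + s * cv 0 = 0 := by
        simp only [s, t]
        field_simp
        ring
      have hmem := hC.add (hC.smul ht hcu) (hC.smul hs hcv)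
      refine ⟨cst (fun i => t * cu i.succ + s * cv i.succ), ?_, _, ?_, rfl⟩
      · rw [Metric.mem_ball, dist_pi_lt_iff hr]
        intro i
        have h1 := hu i.succ
        have h2 := hv i.succ
        rw [Fin.cons_succ, Real.dist_eq, abs_lt] at h1 h2
        rw [Real.dist_eq, abs_lt]
        simp only [cst] at h1 h2 ⊢
        have hs' : (0 : ℝ) < (s : ℝ) := by exact_mod_cast hs
        have ht' : (0 : ℝ) < (t : ℝ) := by exact_mod_cast ht
        have hst' : (s : ℝ) + (t : ℝ) = 1 := by exact_mod_cast hst
        push_cast
        have e : (t : ℝ) * (cu i.succ : ℝ) + (s : ℝ) * (cv i.succ : ℝ) - d i =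
            (t : ℝ) * ((cu i.succ : ℝ) - d i) + (s : ℝ) * ((cv i.succ : ℝ) - d i) := by
          linear_combination (d i) * hst'
        rw [e]
        have a1 := mul_lt_mul_of_pos_left h1.1 ht'
        have a2 := mul_lt_mul_of_pos_left h1.2 ht'
        have a3 := mul_lt_mul_of_pos_left h2.1 hs'
        have a4 := mul_lt_mul_of_pos_left h2.2 hs'
        have a5 : (t : ℝ) * (r / 4) + (s : ℝ) * (r / 4) = r / 4 := by
          linear_combination (r / 4) * hst'
        constructor
        · linarith
        · linarith
      · change Fin.cons 0 (fun i : Fin n => t * cu i.succ + s * cv i.succ) ∈ C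
        have : (Fin.cons 0 (fun i : Fin n => t * cu i.succ + s * cv i.succ) :
            Fin (n + 1) → ℚ) = t • cu + s • cv := by
          rw [← cons_self (t • cu + s • cv)]
          simp only [Pi.add_apply, Pi.smul_apply, smul_eq_mul, hz]
        rw [this]; exact hmem
    have hDall := ih hD hDd
    have hmemD : ∀ y : Fin (n + 1) → ℚ, y 0 = 0 → y ∈ C := by
      intro y hy
      have := hDall (fun i => y i.succ)
      change Fin.cons 0 (fun i : Fin n => y i.succ) ∈ C at this
      rw [← hy, cons_self] at this
      exact this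
    rcases lt_trichotomy (x 0) 0 with h | h | h
    · obtain ⟨v, hv, cv, hcv, rfl⟩ := hd (fun _ => -1) 1 one_pos
      rw [Metric.mem_ball, dist_pi_lt_iff one_pos] at hv
      have hv0 := hv 0
      rw [Real.dist_eq, abs_lt] at hv0
      have hneg : cv 0 < 0 := by
        have : ((cv 0 : ℚ) : ℝ) < 0 := by
          have := hv0.2
          simp only [cst] at this
          linarith
        exact_mod_cast this
      have h1 := hC.smul (q := x 0 / cv 0) (div_pos_of_neg_of_neg h hneg) hcv
      have h2 := hmemD (x - (x 0 / cv 0) • cv) (by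
        simp only [Pi.sub_apply, Pi.smul_apply, smul_eq_mul]
        rw [div_mul_cancel₀ _ hneg.ne, sub_self])
      have h3 := hC.add h1 h2
      rwa [add_sub_cancel] at h3
    · exact hmemD x h
    · obtain ⟨v, hv, cv, hcv, rfl⟩ := hd (fun _ => 1) 1 one_pos
      rw [Metric.mem_ball, dist_pi_lt_iff one_pos] at hv
      have hv0 := hv 0
      rw [Real.dist_eq, abs_lt] at hv0
      have hpos : 0 < cv 0 := by
        have : (0 : ℝ) < ((cv 0 : ℚ) : ℝ) := by
          have := hv0.1
          simp only [cst] at this
          linarith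
        exact_mod_cast this
      have h1 := hC.smul (q := x 0 / cv 0) (div_pos h hpos) hcv
      have h2 := hmemD (x - (x 0 / cv 0) • cv) (by
        simp only [Pi.sub_apply, Pi.smul_apply, smul_eq_mul]
        rw [div_mul_cancel₀ _ hpos.ne', sub_self])
      have h3 := hC.add h1 h2
      rwa [add_sub_cancel] at h3

theorem RCone.univ {n : ℕ} {C : Set (Fin n → ℚ)} (hC : RCone C)
    (hdual : ∀ f : (Fin n → ℝ) →L[ℝ] ℝ, f ≠ 0 → ∃ c ∈ C, f (cst c) < 0) : ∀ x, x ∈ C := by
  apply hC.dense_univ
  by_contra hnd
  rw [dense_iff_closure_eq] at hnd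
  obtain ⟨x, hx⟩ : ∃ x, x ∉ closure (cst '' C) := by
    by_contra h
    push Not at h
    exact hnd (Set.eq_univ_of_forall h)
  -- the closure is a convex cone
  have hadd : ∀ x ∈ closure (cst '' C), ∀ y ∈ closure (cst '' C),
      x + y ∈ closure (cst '' C) := by
    intro x hx y hy
    refine map_mem_closure₂ continuous_add hx hy ?_
    rintro _ ⟨a, ha, rfl⟩ _ ⟨b, hb, rfl⟩
    refine ⟨a + b, hC.add ha hb, ?_⟩
    funext i
    simp [cst]
  have hsmul : ∀ r : ℝ, 0 < r → ∀ x ∈ closure (cst '' C), r • x ∈ closure (cst '' C) := by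
    intro r hr x hx
    -- rational multiples first
    have hq : ∀ q : ℚ, 0 < q → (q : ℝ) • x ∈ closure (cst '' C) := by
      intro q hq
      refine map_mem_closure (f := fun y => (q : ℝ) • y) (continuous_const_smul _) hx ?_
      rintro _ ⟨a, ha, rfl⟩
      refine ⟨q • a, hC.smul hq ha, ?_⟩
      funext i
      simp [cst]
    have hcl : r ∈ closure ((fun q : ℚ => (q : ℝ)) '' {q | 0 < q}) := by
      rw [Metric.mem_closure_iff]
      intro ε hε
      obtain ⟨q, hq1, hq2⟩ := exists_rat_btwn (show r < r + ε by linarith)
      refine ⟨q, ⟨q, ?_, rfl⟩, ?_⟩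
      · have : (0 : ℝ) < q := lt_trans hr hq1
        exact_mod_cast this
      · rw [Real.dist_eq, abs_sub_comm, abs_of_pos (by linarith)]
        linarith
    have := map_mem_closure (f := fun t : ℝ => t • x) (t := closure (cst '' C))
      (by fun_prop) hcl (by
        rintro _ ⟨q, hq', rfl⟩
        exact hq q hq')
    rwa [closure_closure] at this
  have hconv : Convex ℝ (closure (cst '' C)) := by
    intro a ha b hb s t hs ht hst
    rcases eq_or_lt_of_le hs with rfl | hs'
    · have : t = 1 := by linarith
      subst this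
      simpa using hb
    · rcases eq_or_lt_of_le ht with rfl | ht'
      · have : s = 1 := by linarith
        subst this
        simpa using ha
      · exact hadd _ (hsmul s hs' a ha) _ (hsmul t ht' b hb)
  obtain ⟨f, u, hf1, hf2⟩ := geometric_hahn_banach_closed_point hconv isClosed_closure hx
  have h0 : (0 : Fin n → ℝ) ∈ closure (cst '' C) := by
    apply subset_closure
    refine ⟨0, hC.zero, ?_⟩
    funext i
    simp [cst]
  have hu : 0 < u := by
    have := hf1 0 h0
    rwa [map_zero] at this
  have hle : ∀ a ∈ closure (cst '' C), f a ≤ 0 := by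
    intro a ha
    by_contra hcon
    push Not at hcon
    have h1 := hf1 _ (hsmul ((u + 1) / f a) (div_pos (by linarith) hcon) a ha)
    rw [map_smul, smul_eq_mul, div_mul_cancel₀ _ hcon.ne'] at h1
    linarith
  have hne : -f ≠ 0 := by
    intro h
    have : f = 0 := by rwa [neg_eq_zero] at h
    rw [this] at hf2
    simp at hf2
    linarith
  obtain ⟨c, hc, hc'⟩ := hdual (-f) hne
  have := hle (cst c) (subset_closure ⟨c, hc, rfl⟩)
  simp at hc'
  linarith

/-- In a finite dimensional rational vector space: if no nonzero real functional is nonnegative on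
a submonoid, then every element has a positive multiple in the submonoid. -/
theorem exists_nsmul_mem {K : Type*} [AddCommGroup K] [Module ℚ K] [FiniteDimensional ℚ K]
    (M : AddSubmonoid K) (hM : ∀ Λ : K →ₗ[ℚ] ℝ, (∀ x ∈ M, 0 ≤ Λ x) → Λ = 0) (x : K) :
    ∃ k : ℕ, 0 < k ∧ k • x ∈ M := by
  classical
  let b := Module.finBasis ℚ K
  let n := Module.finrank ℚ K
  let C : Set (Fin n → ℚ) := {c | ∃ k : ℕ, 0 < k ∧ k • b.equivFun.symm c ∈ M}
  have hC : RCone C := by
    refine ⟨⟨1, one_pos, by simp⟩, ?_, ?_⟩
    · rintro y z ⟨k, hk, hk'⟩ ⟨l, hl, hl'⟩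
      refine ⟨k * l, Nat.mul_pos hk hl, ?_⟩
      rw [map_add, smul_add]
      refine M.add_mem ?_ ?_
      · rw [mul_comm, mul_smul]; exact M.nsmul_mem hk' l
      · rw [mul_smul]; exact M.nsmul_mem hl' k
    · rintro q y hq ⟨k, hk, hk'⟩
      refine ⟨q.den * k, Nat.mul_pos q.den_pos hk, ?_⟩
      rw [map_smul]
      have hnum : (q.num.toNat : ℤ) = q.num := Int.toNat_of_nonneg (Rat.num_nonneg.2 hq.le)
      have h1 : (q.den * k) • (q • b.equivFun.symm y) = q.num.toNat • (k • b.equivFun.symm y) := by
        rw [← Nat.cast_smul_eq_nsmul ℚ, ← Nat.cast_smul_eq_nsmul ℚ q.num.toNat,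
          ← Nat.cast_smul_eq_nsmul ℚ k, smul_smul, smul_smul]
        congr 1
        have h2 : ((q.num.toNat : ℕ) : ℚ) = (q.num : ℚ) := by
          exact_mod_cast congrArg (fun z : ℤ => (z : ℚ)) hnum
        rw [h2]
        push_cast
        have h3 : (q.den : ℚ) * q = q.num := Rat.den_mul_eq_num q
        linear_combination (k : ℚ) * h3
      rw [h1]
      exact M.nsmul_mem hk' _
  have hall := hC.univ (by
    intro f hf
    by_contra hcon
    push Not at hcon
    apply hf
    -- the induced functional
    let Λ : K →ₗ[ℚ] ℝ :=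
      { toFun := fun x => f (cst (b.equivFun x))
        map_add' := by
          intro x y
          rw [← map_add]
          congr 1
          funext i
          simp [cst]
        map_smul' := by
          intro q x
          have : cst (b.equivFun (q • x)) = (q : ℝ) • cst (b.equivFun x) := by
            funext i
            simp [cst]
          rw [this, map_smul]
          simp only [RingHom.id_apply, smul_eq_mul, Rat.smul_def] }
    have hΛ : Λ = 0 := by
      apply hM
      intro x hx
      apply hcon
      exact ⟨1, one_pos, by simpa using hx⟩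
    have hbas : ∀ i, f (Pi.single i 1) = 0 := by
      intro i
      have h1 : Λ (b i) = 0 := by rw [hΛ]; rfl
      have h2 : cst (b.equivFun (b i)) = Pi.single i 1 := by
        funext j
        simp only [cst, Module.Basis.equivFun_self]
        by_cases h : i = j
        · subst h; simp
        · rw [if_neg h, Pi.single_eq_of_ne (Ne.symm h)]; simp
      have h3 : Λ (b i) = f (cst (b.equivFun (b i))) := rfl
      rw [h3, h2] at h1
      exact h1
    apply ContinuousLinearMap.ext
    intro v
    have hv : v = ∑ i, v i • (Pi.single i 1 : Fin n → ℝ) := by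
      funext j
      rw [Finset.sum_apply, Finset.sum_eq_single j]
      · simp
      · intro i _ hij
        simp [Pi.single_eq_of_ne (Ne.symm hij)]
      · simp
    rw [hv, map_sum]
    simp only [map_smul, hbas, smul_zero, Finset.sum_const_zero]
    rfl)
  have := hall (b.equivFun x)
  obtain ⟨k, hk, hk'⟩ := this
  refine ⟨k, hk, ?_⟩
  simpa using hk'

end Pool.Agent.Lib.MP_ee3a40_co
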