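import Mathlib

/-!
Growth lemmas for sequences `Re (c w ^ k)`.
-/

set_option autoImplicit false

open Filter Topology

namespace Pool.Agent.Lib.MP_ee3a40_co

/-- some power of a nonreal number has negative real part -/
theorem exists_pow_re_neg {w : ℂ} (hw : w.im ≠ 0) : ∃ L : ℕ, (w ^ L).re < 0 := by
  have hw0 : w ≠ 0 := by rintro rfl; simp at hw
  have harg0 : w.arg ≠ 0 := by
    intro h
    rw [Complex.arg_eq_zero_iff] at h
    exact hw h.2
  have hargpi : w.arg ≠ Real.pi := by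
    intro h
    rw [Complex.arg_eq_pi_iff] at h
    exact hw h.2
  set t := |w.arg| with ht
  have ht0 : 0 < t := abs_pos.2 harg0
  have htpi : t < Real.pi := by
    rw [ht, abs_lt]
    exact ⟨Complex.neg_pi_lt_arg w, lt_of_le_of_ne (Complex.arg_le_pi w) hargpi⟩
  let L := ⌊Real.pi / 2 / t⌋₊ + 1
  have h1 : Real.pi / 2 < L * t := by
    have := Nat.lt_floor_add_one (Real.pi / 2 / t)
    rw [div_lt_iff₀ ht0] at this
    push_cast [L]
    exact this
  have h2 : L * t < Real.pi + Real.pi / 2 := by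
    have h3 : (⌊Real.pi / 2 / t⌋₊ : ℝ) ≤ Real.pi / 2 / t :=
      Nat.floor_le (by positivity)
    rw [le_div_iff₀ ht0] at h3
    push_cast [L]
    nlinarith
  refine ⟨L, ?_⟩
  have h3 : (w ^ L).re = ‖w‖ ^ L * Real.cos (L * w.arg) := by
    conv_lhs => rw [← Complex.norm_mul_exp_arg_mul_I w]
    rw [mul_pow, ← Complex.exp_nat_mul, ← Complex.ofReal_pow, Complex.re_ofReal_mul]
    congr 1
    have : (L : ℂ) * (w.arg * Complex.I) = ((L * w.arg : ℝ) : ℂ) * Complex.I := by
      push_cast; ring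
    rw [this, Complex.exp_ofReal_mul_I_re]
  have h4 : Real.cos (L * w.arg) = Real.cos (L * t) := by
    rcases abs_choice w.arg with h | h
    · rw [ht, h]
    · rw [ht, h, mul_neg, Real.cos_neg]
  rw [h3, h4]
  exact mul_neg_of_pos_of_neg (pow_pos (norm_pos_iff.2 hw0) _)
    (Real.cos_neg_of_pi_div_two_lt_of_lt h1 h2)

/-- if `Re (c w ^ k)` is bounded below by a slower exponential, `w` nonreal, then `c = 0` -/
theorem growth {c w : ℂ} (hw : w.im ≠ 0) {τ M : ℝ} (hτ0 : 0 ≤ τ) (hτ : τ < ‖w‖)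
    (h : ∀ k : ℕ, -(M * τ ^ k) ≤ (c * w ^ k).re) : c = 0 := by
  have hw0 : w ≠ 0 := by rintro rfl; simp at hw
  have hwn : 0 < ‖w‖ := norm_pos_iff.2 hw0
  obtain ⟨L, hL⟩ := exists_pow_re_neg hw
  -- upper bound
  have key : ∀ k : ℕ, (c * w ^ (k + 2 * L)).re - 2 * (w ^ L).re * (c * w ^ (k + L)).re +
      ‖w‖ ^ (2 * L) * (c * w ^ k).re = 0 := by
    intro k
    have h1 : ‖w‖ ^ (2 * L) = (w ^ L).re ^ 2 + (w ^ L).im ^ 2 := by
      rw [mul_comm 2 L, pow_mul, ← norm_pow, ← Complex.normSq_eq_norm_sq, Complex.normSq_apply]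
      ring
    have h2 : w ^ (k + 2 * L) = w ^ k * w ^ L * w ^ L := by
      rw [pow_add, two_mul, pow_add]; ring
    have h3 : w ^ (k + L) = w ^ k * w ^ L := by rw [pow_add]
    rw [h1, h2, h3]
    simp only [Complex.mul_re, Complex.mul_im]
    ring
  let M' := (M * τ ^ (2 * L) + 2 * (-(w ^ L).re) * (M * τ ^ L)) / ‖w‖ ^ (2 * L)
  have hup : ∀ k : ℕ, (c * w ^ k).re ≤ M' * τ ^ k := by
    intro k
    have h1 := h (k + 2 * L)
    have h2 := h (k + L)
    have h3 := key k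
    have h4 : 0 < ‖w‖ ^ (2 * L) := pow_pos hwn _
    have h5 : ‖w‖ ^ (2 * L) * (c * w ^ k).re ≤
        (M * τ ^ (2 * L) + 2 * (-(w ^ L).re) * (M * τ ^ L)) * τ ^ k := by
      rw [pow_add] at h1 h2
      nlinarith
    rw [show M' * τ ^ k = ((M * τ ^ (2 * L) + 2 * (-(w ^ L).re) * (M * τ ^ L)) * τ ^ k) /
      ‖w‖ ^ (2 * L) by simp only [M']; ring, le_div_iff₀ h4]
    linarith
  have habs : ∀ k : ℕ, |(c * w ^ k).re| ≤ (|M| + |M'|) * τ ^ k := by
    intro k
    have hk : 0 ≤ τ ^ k := pow_nonneg hτ0 k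
    rw [abs_le]
    constructor
    · have h1 := h k
      have h2 : M * τ ^ k ≤ |M| * τ ^ k := mul_le_mul_of_nonneg_right (le_abs_self M) hk
      have h3 : 0 ≤ |M'| * τ ^ k := mul_nonneg (abs_nonneg _) hk
      nlinarith
    · have h1 := hup k
      have h2 : M' * τ ^ k ≤ |M'| * τ ^ k := mul_le_mul_of_nonneg_right (le_abs_self M') hk
      have h3 : 0 ≤ |M| * τ ^ k := mul_nonneg (abs_nonneg _) hk
      nlinarith
  -- the imaginary part
  set A := |M| + |M'| with hA
  have hA0 : 0 ≤ A := add_nonneg (abs_nonneg _) (abs_nonneg _)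
  let B := (A * |w.re| + A * τ) / |w.im|
  have him : ∀ k : ℕ, |(c * w ^ k).im| ≤ B * τ ^ k := by
    intro k
    have h1 : (c * w ^ k).im * w.im = (c * w ^ k).re * w.re - (c * w ^ (k + 1)).re := by
      rw [pow_succ, ← mul_assoc, Complex.mul_re (c * w ^ k) w]
      ring
    have h2 : |(c * w ^ k).im| * |w.im| ≤ (A * |w.re| + A * τ) * τ ^ k := by
      rw [← abs_mul, h1]
      refine (abs_sub _ _).trans ?_
      rw [abs_mul]
      have h3 := habs k
      have h4 := habs (k + 1)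
      have h5 : |(c * w ^ k).re| * |w.re| ≤ A * τ ^ k * |w.re| :=
        mul_le_mul_of_nonneg_right h3 (abs_nonneg _)
      have h6 : τ ^ (k + 1) = τ ^ k * τ := pow_succ _ _
      rw [h6] at h4
      nlinarith
    have h3 : 0 < |w.im| := abs_pos.2 hw
    rw [show B * τ ^ k = ((A * |w.re| + A * τ) * τ ^ k) / |w.im| by simp only [B]; ring,
      le_div_iff₀ h3]
    exact h2
  have hnorm : ∀ k : ℕ, ‖c‖ * ‖w‖ ^ k ≤ (A + B) * τ ^ k := by
    intro k
    rw [← norm_pow, ← norm_mul]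
    refine (Complex.norm_le_abs_re_add_abs_im _).trans ?_
    have h1 := habs k
    have h2 := him k
    nlinarith
  have hlim : Tendsto (fun k : ℕ => (A + B) * (τ / ‖w‖) ^ k) atTop (𝓝 ((A + B) * 0)) := by
    apply Tendsto.const_mul
    apply tendsto_pow_atTop_nhds_zero_of_lt_one
    · positivity
    · rw [div_lt_one hwn]; exact hτ
  rw [mul_zero] at hlim
  have hle : ‖c‖ ≤ 0 := by
    apply ge_of_tendsto' hlim
    intro k
    have h1 := hnorm k
    have h2 : 0 < ‖w‖ ^ k := pow_pos hwn k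
    rw [div_pow, ← mul_div_assoc, le_div_iff₀ h2]
    exact h1
  exact norm_le_zero_iff.1 hle

/-- real version: the dominating coefficient is nonnegative -/
theorem growth_real {a v τ M : ℝ} (hτ0 : 0 ≤ τ) (hτ : τ < v)
    (h : ∀ k : ℕ, -(M * τ ^ k) ≤ a * v ^ k) : 0 ≤ a := by
  have hv : 0 < v := lt_of_le_of_lt hτ0 hτ
  have hlim : Tendsto (fun k : ℕ => -(M * (τ / v) ^ k)) atTop (𝓝 (-(M * 0))) := by
    apply Tendsto.neg
    apply Tendsto.const_mul
    apply tendsto_pow_atTop_nhds_zero_of_lt_one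
    · positivity
    · rw [div_lt_one hv]; exact hτ
  rw [mul_zero, neg_zero] at hlim
  apply le_of_tendsto' hlim
  intro k
  have h1 := h k
  have h2 : 0 < v ^ k := pow_pos hv k
  rw [div_pow, ← mul_div_assoc, ← neg_div, div_le_iff₀ h2]
  exact h1

end Pool.Agent.Lib.MP_ee3a40_co
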