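import Pool.Agent.Lib.MP_ee3a40_co.Assembly
import Pool.Agent.Lib.MP_ee3a40_co.Growth
import Pool.Agent.Lib.MP_ee3a40_co.Coeff

/-!
A rational functional nonnegative on all `r - 1` vanishes.
-/

set_option autoImplicit false

open ComplexConjugate Filter Topology Polynomial

namespace Pool.Agent.Lib.MP_ee3a40_co

section path

variable {K : Type*} [Field K]

/-- ratio of a path -/
def pr (y : K) (l : ℕ) : K := (1 - y ^ (l + 1)) / (1 - y ^ (l + 2))

theorem pr_mem {q' y : K} (hy0 : y ≠ 0) (hq : q' = 1 - y⁻¹) (hy : ∀ k : ℕ, 0 < k → y ^ k ≠ 1)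
    (l : ℕ) : pr y l ∈ Rat' q' := by
  have hne : ∀ k : ℕ, 0 < k → 1 - y ^ k ≠ 0 := fun k hk => sub_ne_zero.2 (Ne.symm (hy k hk))
  have h1 : 1 - y ≠ 0 := by simpa using hne 1 one_pos
  have h2 : 1 + y ≠ 0 := by
    intro h
    apply hne 2 (by norm_num)
    linear_combination (1 - y) * h
  induction l with
  | zero =>
    have hq2 : q' - 2 ≠ 0 := by
      rw [hq]
      intro h
      apply h2
      have : y * (1 - y⁻¹ - 2) = 0 := by rw [h, mul_zero]
      field_simp at this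
      linear_combination -this
    have h := rat_join (q := q') (rat_one (q' - 1)) hq2
    have e : (q' - 1) / (q' - 2) * 1 = pr y 0 := by
      have h3 := hne 2 (by norm_num)
      unfold pr
      rw [mul_one, zero_add, zero_add, pow_one, div_eq_div_iff hq2 h3, hq]
      field_simp
      ring
    rw [← e]; exact h
  | succ l ih =>
    have h3 := hne (l + 1) (by omega)
    have h4 := hne (l + 2) (by omega)
    have h5 := hne (l + 3) (by omega)
    have e1 : pr y l + (q' - 2) = -(1 - y ^ (l + 3)) / (y * (1 - y ^ (l + 2))) := by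
      unfold pr
      rw [hq]
      field_simp
      ring
    have h6 : pr y l + (q' - 2) ≠ 0 := by
      rw [e1]
      exact div_ne_zero (neg_ne_zero.2 h5) (mul_ne_zero hy0 h4)
    have h := rat_series ih h6
    have e : (q' - 1) / (pr y l + (q' - 2)) = pr y (l + 1) := by
      rw [e1, hq]
      unfold pr
      have e3 : l + 1 + 1 = l + 2 := rfl
      have e4 : l + 1 + 2 = l + 3 := rfl
      rw [e3, e4]
      field_simp
      ring
    rw [← e]; exact h

end path

/-- bound for path ratios -/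
theorem norm_pr_le {y : ℂ} (hy : ‖y‖ < 1) (l : ℕ) :
    ‖pr y l - 1‖ ≤ 2 / (1 - ‖y‖) * ‖y‖ ^ (l + 1) := by
  have h1 : ‖y ^ (l + 2)‖ < 1 := by
    rw [norm_pow]
    exact pow_lt_one₀ (norm_nonneg _) hy (by omega)
  have h2 : 1 - y ^ (l + 2) ≠ 0 := by
    intro h
    have : y ^ (l + 2) = 1 := by linear_combination -h
    rw [this, norm_one] at h1
    exact lt_irrefl _ h1
  have h3 : 1 - ‖y‖ ≤ ‖1 - y ^ (l + 2)‖ := by
    have h4 : ‖(1 : ℂ)‖ - ‖y ^ (l + 2)‖ ≤ ‖1 - y ^ (l + 2)‖ := norm_sub_norm_le _ _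
    rw [norm_one, norm_pow] at h4
    have h5 : ‖y‖ ^ (l + 2) ≤ ‖y‖ ^ 1 := pow_le_pow_of_le_one (norm_nonneg _) hy.le (by omega)
    rw [pow_one] at h5
    linarith
  have e : pr y l - 1 = -(y ^ (l + 1) * (1 - y)) / (1 - y ^ (l + 2)) := by
    unfold pr
    field_simp
    ring
  have h6 : ‖1 - y‖ ≤ 2 := by
    have := norm_sub_le (1 : ℂ) y
    rw [norm_one] at this
    linarith
  have h7 : 0 < 1 - ‖y‖ := by linarith
  rw [e, norm_div, norm_neg, norm_mul, norm_pow, div_le_iff₀ (lt_of_lt_of_le h7 h3)]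
  have h8 : 0 ≤ ‖y‖ ^ (l + 1) := pow_nonneg (norm_nonneg _) _
  calc ‖y‖ ^ (l + 1) * ‖1 - y‖ ≤ ‖y‖ ^ (l + 1) * 2 := mul_le_mul_of_nonneg_left h6 h8
    _ = 2 / (1 - ‖y‖) * ‖y‖ ^ (l + 1) * (1 - ‖y‖) := by field_simp
    _ ≤ 2 / (1 - ‖y‖) * ‖y‖ ^ (l + 1) * ‖1 - y ^ (l + 2)‖ :=
      mul_le_mul_of_nonneg_left h3 (by positivity)

/-- path ratios at positive reals below one -/
theorem norm_pr_real {y : ℝ} (h0 : 0 < y) (h1 : y < 1) (l : ℕ) : ‖pr (y : ℂ) l‖ ≤ 1 := by
  have e : pr (y : ℂ) l = ((pr y l : ℝ) : ℂ) := by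
    unfold pr; push_cast; rfl
  rw [e, Complex.norm_real, Real.norm_eq_abs]
  unfold pr
  have h2 : y ^ (l + 1) < 1 := pow_lt_one₀ h0.le h1 (by omega)
  have h3 : y ^ (l + 2) ≤ y ^ (l + 1) := pow_le_pow_of_le_one h0.le h1.le (by omega)
  rw [abs_of_nonneg (div_nonneg (by linarith) (by linarith)), div_le_one (by linarith)]
  linarith

theorem exists_between_finset {ι : Type*} (s : Finset ι) (f : ι → ℝ) {a b : ℝ} (hb : b < a)
    (h : ∀ i ∈ s, f i < a) : ∃ t, b ≤ t ∧ t < a ∧ ∀ i ∈ s, f i ≤ t := by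
  classical
  induction s using Finset.induction_on with
  | empty => exact ⟨b, le_rfl, hb, by simp⟩
  | insert i s _ ih =>
    obtain ⟨t, h1, h2, h3⟩ := ih (fun j hj => h j (Finset.mem_insert_of_mem hj))
    refine ⟨max t (f i), h1.trans (le_max_left _ _), max_lt h2 (h i (Finset.mem_insert_self _ _)),
      ?_⟩
    intro j hj
    rcases Finset.mem_insert.1 hj with rfl | hj
    · exact le_max_right _ _
    · exact (h3 j hj).trans (le_max_left _ _)

/-- distances to large integers separate non-conjugate points -/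
theorem ev_norm_ne {z w : ℂ} (h1 : z ≠ w) (h2 : z ≠ conj w) :
    ∀ᶠ m : ℕ in atTop, ‖(m : ℂ) + 1 - z‖ ≠ ‖(m : ℂ) + 1 - w‖ := by
  have hsq : ∀ (m : ℕ) (z : ℂ), ‖(m : ℂ) + 1 - z‖ ^ 2 = ((m : ℝ) + 1 - z.re) ^ 2 + z.im ^ 2 := by
    intro m z
    rw [← Complex.normSq_eq_norm_sq, Complex.normSq_apply]
    simp
    ring
  by_cases hre : z.re = w.re
  · apply Eventually.of_forall
    intro m hm
    have h3 := hsq m z
    rw [hm, hsq m w, hre] at h3
    have h4 : z.im ^ 2 = w.im ^ 2 := by linarith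
    rcases sq_eq_sq_iff_eq_or_eq_neg.1 h4 with h5 | h5
    · exact h1 (Complex.ext hre h5)
    · apply h2
      apply Complex.ext
      · simpa using hre
      · simpa using h5
  · have hev : ∀ᶠ m : ℕ in atTop,
        (w.re ^ 2 + w.im ^ 2 - z.re ^ 2 - z.im ^ 2) / (2 * (w.re - z.re)) < (m : ℝ) + 1 := by
      have : Tendsto (fun m : ℕ => (m : ℝ) + 1) atTop atTop :=
        tendsto_atTop_add_const_right _ _ tendsto_natCast_atTop_atTop
      exact this.eventually_gt_atTop _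
    filter_upwards [hev] with m hm hcon
    have h3 := hsq m z
    rw [hcon, hsq m w] at h3
    have h4 : 2 * (w.re - z.re) ≠ 0 := by
      intro h
      apply hre
      linarith
    have h5 : (w.re ^ 2 + w.im ^ 2 - z.re ^ 2 - z.im ^ 2) / (2 * (w.re - z.re)) =
        (m : ℝ) + 1 := by
      rw [div_eq_iff h4]
      linarith
    linarith

end Pool.Agent.Lib.MP_ee3a40_co
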