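import Pool.Agent.Lib.MP_ee3a40_co.Dual

set_option autoImplicit false

open ComplexConjugate Filter Topology Polynomial

namespace Pool.Agent.Lib.MP_ee3a40_co

variable {K : Type*} [Field K] [Algebra ℚ K] [FiniteDimensional ℚ K]

omit [FiniteDimensional ℚ K] in
theorem map_pr (σ : K →ₐ[ℚ] ℂ) (y : K) (l : ℕ) : σ (pr y l) = pr (σ y) l := by
  simp [pr]

/-- The sum over all embeddings, split off a conjugate pair and bounded. -/
theorem sum_bound (c : (K →ₐ[ℚ] ℂ) → ℂ) (hc : ∀ σ, c (conjA σ) = conj (c σ))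
    {j : K →ₐ[ℚ] ℂ} (hj : conjA j ≠ j) (x : K) {B : ℝ}
    (hB : ∀ σ, c σ ≠ 0 → σ ≠ j → σ ≠ conjA j → ‖σ x‖ ≤ B) (hB0 : 0 ≤ B) :
    ∑ σ, (c σ * σ x).re ≤ (2 * c j * j x).re + (∑ σ, ‖c σ‖) * B := by
  classical
  have h1 : ∑ σ, (c σ * σ x).re = (c j * j x).re + (c (conjA j) * (conjA j) x).re +
      ∑ σ ∈ (Finset.univ.erase j).erase (conjA j), (c σ * σ x).re := by
    rw [← Finset.add_sum_erase Finset.univ _ (Finset.mem_univ j),
      ← Finset.add_sum_erase (Finset.univ.erase j) _ (Finset.mem_erase.2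
        ⟨hj, Finset.mem_univ _⟩)]
    ring
  have h2 : (c (conjA j) * (conjA j) x).re = (c j * j x).re := by
    rw [hc, conjA_apply, ← map_mul, Complex.conj_re]
  have h3 : ∑ σ ∈ (Finset.univ.erase j).erase (conjA j), (c σ * σ x).re ≤
      ∑ σ ∈ (Finset.univ.erase j).erase (conjA j), ‖c σ‖ * B := by
    apply Finset.sum_le_sum
    intro σ hσ
    have h4 := Finset.ne_of_mem_erase hσ
    have h5 := Finset.ne_of_mem_erase (Finset.mem_of_mem_erase hσ)
    by_cases h0 : c σ = 0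
    · simp [h0]
    · refine (Complex.re_le_norm _).trans ?_
      rw [norm_mul]
      exact mul_le_mul_of_nonneg_left (hB σ h0 h5 h4) (norm_nonneg _)
  have h6 : ∑ σ ∈ (Finset.univ.erase j).erase (conjA j), ‖c σ‖ * B ≤ ∑ σ, ‖c σ‖ * B := by
    apply Finset.sum_le_sum_of_subset_of_nonneg (Finset.subset_univ _)
    intro σ _ _
    exact mul_nonneg (norm_nonneg _) hB0
  have h7 : (2 * c j * j x).re = (c j * j x).re + (c j * j x).re := by
    rw [mul_assoc, two_mul, Complex.add_re]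
  rw [h1, h2, h7, Finset.sum_mul]
  linarith

theorem ev_pow {ι : Type*} (s : Finset ι) (a b : ι → ℝ) {A B : ℝ} (hA : 0 < A)
    (hB : 1 < B) (hb0 : ∀ i ∈ s, 0 ≤ b i) (hb : ∀ i ∈ s, b i < B) :
    ∀ᶠ e : ℕ in atTop, 1 < A * B ^ e ∧ ∀ i ∈ s, a i * b i ^ e < A * B ^ e := by
  have hB0 : 0 < B := by linarith
  apply Filter.Eventually.and
  · have h1 : Tendsto (fun e : ℕ => B ^ e) atTop atTop := tendsto_pow_atTop_atTop_of_one_lt hB
    filter_upwards [h1.eventually_gt_atTop (1 / A)] with e he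
    rw [div_lt_iff₀ hA] at he
    linarith
  · rw [Filter.eventually_all_finset]
    intro i hi
    have h1 : Tendsto (fun e : ℕ => a i * (b i / B) ^ e) atTop (𝓝 (a i * 0)) := by
      apply Tendsto.const_mul
      apply tendsto_pow_atTop_nhds_zero_of_lt_one
      · exact div_nonneg (hb0 i hi) hB0.le
      · rw [div_lt_one hB0]; exact hb i hi
    rw [mul_zero] at h1
    filter_upwards [h1.eventually_lt_const hA] with e he
    have h2 : 0 < B ^ e := pow_pos hB0 e
    rw [div_pow, ← mul_div_assoc, div_lt_iff₀ h2] at he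
    exact he

/-- coefficients at nonreal embeddings vanish -/
theorem nonreal_zero (q : K) (hgen : ∀ σ τ : K →ₐ[ℚ] ℂ, σ q = τ q → σ = τ)
    (hq : ∀ m : ℕ, q ≠ m) (c : (K →ₐ[ℚ] ℂ) → ℂ) (hc : ∀ σ, c (conjA σ) = conj (c σ))
    (C0 : ℝ) (H : ∀ r ∈ Rat' q, C0 ≤ ∑ σ, (c σ * σ r).re) :
    ∀ σ : K →ₐ[ℚ] ℂ, (σ q).im ≠ 0 → c σ = 0 := by
  classical
  by_contra hcon
  push Not at hcon
  obtain ⟨σ0, hσ0, hcσ0⟩ := hcon
  -- choose `m`
  have hev1 : ∀ σ τ : K →ₐ[ℚ] ℂ, σ ≠ τ → σ ≠ conjA τ →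
      ∀ᶠ m : ℕ in atTop, ‖(m : ℂ) + 1 - σ q‖ ≠ ‖(m : ℂ) + 1 - τ q‖ := by
    intro σ τ h1 h2
    apply ev_norm_ne
    · exact fun h => h1 (hgen _ _ h)
    · exact fun h => h2 (hgen _ _ h)
  have hev1' : ∀ᶠ m : ℕ in atTop, ∀ σ τ : K →ₐ[ℚ] ℂ, σ ≠ τ → σ ≠ conjA τ →
      ‖(m : ℂ) + 1 - σ q‖ ≠ ‖(m : ℂ) + 1 - τ q‖ := by
    rw [Filter.eventually_all]
    intro σ
    rw [Filter.eventually_all]
    intro τ
    by_cases h1 : σ = τ
    · exact Eventually.of_forall (fun m h => absurd h1 h)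
    · by_cases h2 : σ = conjA τ
      · exact Eventually.of_forall (fun m _ h => absurd h2 h)
      · filter_upwards [hev1 σ τ h1 h2] with m hm _ _
        exact hm
  have hev2 : ∀ᶠ m : ℕ in atTop, ∀ σ : K →ₐ[ℚ] ℂ, (σ q).re < (m : ℝ) := by
    rw [Filter.eventually_all]
    intro σ
    exact tendsto_natCast_atTop_atTop.eventually_gt_atTop _
  obtain ⟨m, hm1, hm2⟩ := (hev1'.and hev2).exists
  have hre : ∀ σ : K →ₐ[ℚ] ℂ, 1 < ((m : ℂ) + 1 - σ q).re := by
    intro σ
    have := hm2 σ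
    simp
    linarith
  have hnorm : ∀ σ : K →ₐ[ℚ] ℂ, 1 < ‖(m : ℂ) + 1 - σ q‖ :=
    fun σ => lt_of_lt_of_le (hre σ) (Complex.re_le_norm _)
  -- the element `y`
  let y : K := ((m : K) + 1 - q)⁻¹
  have hy' : (m : K) + 1 - q ≠ 0 := by
    intro h
    apply hq (m + 1)
    push_cast
    linear_combination -h
  have hy0 : y ≠ 0 := inv_ne_zero hy'
  have hσy : ∀ σ : K →ₐ[ℚ] ℂ, σ y = ((m : ℂ) + 1 - σ q)⁻¹ := by
    intro σ
    simp [y]
  have hylt : ∀ σ : K →ₐ[ℚ] ℂ, ‖σ y‖ < 1 := by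
    intro σ
    rw [hσy, norm_inv]
    exact inv_lt_one_of_one_lt₀ (hnorm σ)
  have hypow : ∀ k : ℕ, 0 < k → y ^ k ≠ 1 := by
    intro k hk h
    have h1 := congrArg (fun x => ‖σ0 x‖) h
    simp only [map_pow, map_one, norm_one, norm_pow] at h1
    have := pow_lt_one₀ (norm_nonneg (σ0 y)) (hylt σ0) (Nat.pos_iff_ne_zero.1 hk)
    linarith
  -- the gadget family
  have hpr : ∀ l, pr y l ∈ Rat' (q - m) := by
    intro l
    apply pr_mem hy0 _ hypow
    simp only [y, inv_inv]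
    ring
  let u : K := (q - 1) / (q - 1 - m)
  have hu : ∀ (l e : ℕ), u * pr y l ^ e ∈ Rat' q := fun l e => rat_joins hq m (rat_pow (hpr l) e)
  -- the dominating embedding
  let I : Finset (K →ₐ[ℚ] ℂ) := Finset.univ.filter (fun σ => (σ q).im ≠ 0 ∧ c σ ≠ 0)
  have hI : I.Nonempty := ⟨σ0, by simp [I, hσ0, hcσ0]⟩
  obtain ⟨j, hjI, hjmin⟩ := I.exists_min_image (fun σ => ‖(m : ℂ) + 1 - σ q‖) hI
  have hj1 : (j q).im ≠ 0 := (Finset.mem_filter.1 hjI).2.1
  have hcj : c j ≠ 0 := (Finset.mem_filter.1 hjI).2.2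
  have hjj : conjA j ≠ j := by
    intro h
    have h1 := congrArg (fun σ : K →ₐ[ℚ] ℂ => σ q) h
    simp only [conjA_apply] at h1
    exact hj1 (Complex.conj_eq_iff_im.1 h1)
  let O : Finset (K →ₐ[ℚ] ℂ) := Finset.univ.filter (fun σ => c σ ≠ 0 ∧ σ ≠ j ∧ σ ≠ conjA j)
  have hOy : ∀ σ ∈ O.filter (fun σ => (σ q).im ≠ 0), ‖σ y‖ < ‖j y‖ := by
    intro σ hσ
    obtain ⟨hσO, hσim⟩ := Finset.mem_filter.1 hσ
    obtain ⟨-, hcσ, hσj, hσj'⟩ := Finset.mem_filter.1 hσO
    have h1 := hjmin σ (by simp [I, hσim, hcσ])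
    have h2 := hm1 σ j hσj hσj'
    have h3 : ‖(m : ℂ) + 1 - j q‖ < ‖(m : ℂ) + 1 - σ q‖ := lt_of_le_of_ne h1 (Ne.symm h2)
    rw [hσy, hσy, norm_inv, norm_inv]
    exact inv_strictAnti₀ (by linarith [hnorm j]) h3
  have hjy0 : 0 < ‖j y‖ := by
    rw [norm_pos_iff, hσy]
    apply inv_ne_zero
    intro h
    have := hnorm j
    rw [h, norm_zero] at this
    linarith
  obtain ⟨t, ht0, ht1, ht2⟩ := exists_between_finset _ (fun σ : K →ₐ[ℚ] ℂ => ‖σ y‖) hjy0 hOy
  -- uniform bound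
  let B : ℝ := ∑ σ : K →ₐ[ℚ] ℂ, 2 / (1 - ‖σ y‖)
  have hBpos : ∀ σ : K →ₐ[ℚ] ℂ, 0 < 2 / (1 - ‖σ y‖) := fun σ =>
    div_pos two_pos (by linarith [hylt σ])
  have hBle : ∀ σ : K →ₐ[ℚ] ℂ, 2 / (1 - ‖σ y‖) ≤ B := fun σ =>
    Finset.single_le_sum (f := fun σ : K →ₐ[ℚ] ℂ => 2 / (1 - ‖σ y‖))
      (fun τ _ => (hBpos τ).le) (Finset.mem_univ σ)
  have hB0 : 0 ≤ B := (hBpos σ0).le.trans (hBle σ0)
  have hO1 : ∀ σ ∈ O, ∀ l, ‖σ (pr y l)‖ ≤ 1 + B * t ^ (l + 1) := by
    intro σ hσ l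
    rw [map_pr]
    have hnn : 0 ≤ B * t ^ (l + 1) := mul_nonneg hB0 (pow_nonneg ht0 _)
    by_cases him : (σ q).im = 0
    · -- real embedding
      have h1 : σ y = (((m : ℝ) + 1 - (σ q).re)⁻¹ : ℝ) := by
        rw [hσy]
        have : σ q = ((σ q).re : ℂ) := Complex.ext (by simp) (by simp [him])
        rw [this]
        push_cast
        simp
      have h2 : 1 < (m : ℝ) + 1 - (σ q).re := by
        have := hre σ
        simpa using this
      rw [h1]
      have := norm_pr_real (y := ((m : ℝ) + 1 - (σ q).re)⁻¹) (by positivity)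
        (inv_lt_one_of_one_lt₀ h2) l
      linarith
    · have h1 := norm_pr_le (hylt σ) l
      have h2 : ‖pr (σ y) l‖ ≤ 1 + ‖pr (σ y) l - 1‖ := by
        have := norm_add_le (1 : ℂ) (pr (σ y) l - 1)
        rw [norm_one, add_sub_cancel] at this
        exact this
      have h3 : ‖σ y‖ ≤ t := ht2 σ (Finset.mem_filter.2 ⟨hσ, him⟩)
      have h4 : ‖σ y‖ ^ (l + 1) ≤ t ^ (l + 1) := pow_le_pow_left₀ (norm_nonneg _) h3 _
      have h5 : 2 / (1 - ‖σ y‖) * ‖σ y‖ ^ (l + 1) ≤ B * t ^ (l + 1) :=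
        mul_le_mul (hBle σ) h4 (pow_nonneg (norm_nonneg _) _) hB0
      linarith
  -- Claim A1
  have A1 : ∃ l, 1 < ‖j (pr y l)‖ ∧ ∀ σ ∈ O, ‖σ (pr y l)‖ < ‖j (pr y l)‖ := by
    by_contra hA
    push Not at hA
    have h1 : ∀ l, ‖j (pr y l)‖ ≤ 1 + B * t ^ (l + 1) := by
      intro l
      by_cases h : 1 < ‖j (pr y l)‖
      · obtain ⟨σ, hσ, hσ'⟩ := hA l h
        exact hσ'.trans (hO1 σ hσ l)
      · push Not at h
        have hnn : 0 ≤ B * t ^ (l + 1) := mul_nonneg hB0 (pow_nonneg ht0 _)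
        linarith
    have him : (j y).im ≠ 0 := by
      rw [hσy, Complex.inv_im]
      apply div_ne_zero
      · simpa using hj1
      · intro h
        rw [Complex.normSq_eq_zero] at h
        have := hnorm j
        rw [h, norm_zero] at this
        linarith
    have hjlt := hylt j
    have htlt : t < 1 := ht1.trans hjlt
    have hc0 : (1 - j y) * j y = 0 := by
      apply growth (w := j y) (τ := max t (‖j y‖ ^ 2)) (M := 2 * B) him
      · exact le_max_of_le_left ht0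
      · apply max_lt ht1
        rw [sq]
        exact mul_lt_of_lt_one_left hjy0 hjlt
      · intro l
        set ρ := pr (j y) l with hρ
        have h2 := h1 l
        rw [map_pr, ← hρ] at h2
        have hden : 1 - (j y) ^ (l + 2) ≠ 0 := by
          intro h
          have h3 : ‖(j y) ^ (l + 2)‖ = 1 := by
            rw [show (j y) ^ (l + 2) = 1 by linear_combination -h, norm_one]
          rw [norm_pow] at h3
          have := pow_lt_one₀ (norm_nonneg (j y)) hjlt (show l + 2 ≠ 0 by omega)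
          linarith
        have h3 : (1 - j y) * j y * j y ^ l = -(ρ - 1) + (ρ - 1) * j y ^ (l + 2) := by
          rw [hρ]
          unfold pr
          field_simp
          ring
        rw [h3, Complex.add_re, Complex.neg_re, Complex.sub_re, Complex.one_re]
        have h4 : ρ.re ≤ ‖ρ‖ := Complex.re_le_norm ρ
        have h5 : -‖(ρ - 1) * j y ^ (l + 2)‖ ≤ ((ρ - 1) * j y ^ (l + 2)).re :=
          (abs_le.1 (Complex.abs_re_le_norm _)).1
        have h6 : ‖(ρ - 1) * j y ^ (l + 2)‖ ≤ B * (max t (‖j y‖ ^ 2)) ^ l := by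
          rw [norm_mul, norm_pow]
          have h7 : ‖ρ - 1‖ ≤ B * ‖j y‖ ^ (l + 1) := by
            refine (norm_pr_le hjlt l).trans ?_
            exact mul_le_mul_of_nonneg_right (hBle j) (pow_nonneg (norm_nonneg _) _)
          calc ‖ρ - 1‖ * ‖j y‖ ^ (l + 2) ≤ B * ‖j y‖ ^ (l + 1) * ‖j y‖ ^ (l + 2) :=
                mul_le_mul_of_nonneg_right h7 (pow_nonneg (norm_nonneg _) _)
            _ = B * (‖j y‖ ^ 3 * (‖j y‖ ^ 2) ^ l) := by ring
            _ ≤ B * (1 * (max t (‖j y‖ ^ 2)) ^ l) := by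
                apply mul_le_mul_of_nonneg_left _ hB0
                apply mul_le_mul
                · exact pow_le_one₀ (norm_nonneg _) hjlt.le
                · exact pow_le_pow_left₀ (by positivity) (le_max_right _ _) _
                · positivity
                · norm_num
            _ = B * (max t (‖j y‖ ^ 2)) ^ l := by ring
        have h8 : B * t ^ (l + 1) ≤ B * (max t (‖j y‖ ^ 2)) ^ l := by
          apply mul_le_mul_of_nonneg_left _ hB0
          calc t ^ (l + 1) = t ^ l * t := pow_succ _ _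
            _ ≤ t ^ l * 1 := mul_le_mul_of_nonneg_left htlt.le (pow_nonneg ht0 _)
            _ = t ^ l := mul_one _
            _ ≤ (max t (‖j y‖ ^ 2)) ^ l := pow_le_pow_left₀ ht0 (le_max_left _ _) _
        linarith
    rcases mul_eq_zero.1 hc0 with h | h
    · have : j y = 1 := by linear_combination -h
      rw [this, norm_one] at hjlt
      exact lt_irrefl _ hjlt
    · rw [h, norm_zero] at hjy0
      exact lt_irrefl _ hjy0
  obtain ⟨l, hl1, hl2⟩ := A1
  -- Claim A2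
  have hq1 : q - 1 ≠ 0 := by
    have := hq 1
    rw [Nat.cast_one] at this
    exact sub_ne_zero.2 this
  have hq2 : q - 2 ≠ 0 := by
    have := hq 2
    rw [Nat.cast_ofNat] at this
    exact sub_ne_zero.2 this
  have hqm : q - 1 - m ≠ 0 := by
    intro h
    apply hy'
    linear_combination -h
  let g : K := (q - 1) / (q - 2)
  have hg : g ∈ Rat' q := by
    have := rat_join (q := q) (rat_one (q - 1)) hq2
    rwa [mul_one] at this
  have hu0 : j u ≠ 0 := by
    rw [_root_.map_ne_zero]; exact div_ne_zero hq1 hqm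
  have hgu0 : j (g * u) ≠ 0 := by
    rw [_root_.map_ne_zero]; exact mul_ne_zero (div_ne_zero hq1 hq2) (div_ne_zero hq1 hqm)
  have hev3 := ev_pow O (fun σ => ‖σ u‖) (fun σ => ‖σ (pr y l)‖) (norm_pos_iff.2 hu0) hl1
    (fun σ _ => norm_nonneg _) hl2
  have hev4 := ev_pow O (fun σ => ‖σ (g * u)‖) (fun σ => ‖σ (pr y l)‖) (norm_pos_iff.2 hgu0) hl1
    (fun σ _ => norm_nonneg _) hl2
  obtain ⟨e, he3, he4⟩ := (hev3.and hev4).exists
  have A2 : ∃ w ∈ Rat' q, 1 < ‖j w‖ ∧ (∀ σ ∈ O, ‖σ w‖ < ‖j w‖) ∧ (j w).im ≠ 0 := by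
    by_cases him : (j (u * pr y l ^ e)).im = 0
    · refine ⟨g * (u * pr y l ^ e), rat_mul hg (hu l e), ?_, ?_, ?_⟩
      · have h1 := he4.1
        rw [← norm_pow, ← norm_mul, ← map_pow, ← map_mul] at h1
        rwa [mul_assoc] at h1
      · intro σ hσ
        have h1 := he4.2 σ hσ
        beta_reduce at h1
        rw [← norm_pow, ← norm_mul, ← map_pow, ← map_mul, ← norm_pow, ← norm_mul, ← map_pow,
          ← map_mul] at h1
        rwa [mul_assoc] at h1
      · rw [map_mul, Complex.mul_im, him, mul_zero, zero_add]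
        apply mul_ne_zero
        · have : j g = 1 + (j q - 2)⁻¹ := by
            have h1 : j q - 2 ≠ 0 := by
              have : j (q - 2) ≠ 0 := by rw [_root_.map_ne_zero]; exact hq2
              rwa [map_sub, map_ofNat] at this
            simp only [g, map_div₀, map_sub, map_one, map_ofNat]
            field_simp
            ring
          rw [this, Complex.add_im, Complex.one_im, zero_add, Complex.inv_im]
          apply div_ne_zero
          · simpa using hj1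
          · rw [Complex.normSq_eq_zero.ne]
            have : j (q - 2) ≠ 0 := by rw [_root_.map_ne_zero]; exact hq2
            rwa [map_sub, map_ofNat] at this
        · intro hre0
          have h1 : j (u * pr y l ^ e) = 0 := Complex.ext hre0 him
          have h2 := he3.1
          rw [← norm_pow, ← norm_mul, ← map_pow, ← map_mul, h1, norm_zero] at h2
          linarith
    · refine ⟨u * pr y l ^ e, hu l e, ?_, ?_, him⟩
      · have h1 := he3.1
        rwa [← norm_pow, ← norm_mul, ← map_pow, ← map_mul] at h1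
      · intro σ hσ
        have h1 := he3.2 σ hσ
        beta_reduce at h1
        rwa [← norm_pow, ← norm_mul, ← map_pow, ← map_mul, ← norm_pow, ← norm_mul, ← map_pow,
          ← map_mul] at h1
  obtain ⟨w, hw, hw1, hw2, hwim⟩ := A2
  obtain ⟨τ, hτ1, hτ2, hτ3⟩ := exists_between_finset O (fun σ : K →ₐ[ℚ] ℂ => ‖σ w‖) hw1 hw2
  have hfin : 2 * c j = 0 := by
    apply growth (w := j w) (τ := τ) (M := |C0| + ∑ σ, ‖c σ‖) hwim (by linarith) hτ2
    intro k
    have h1 := H (w ^ k) (rat_pow hw k)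
    have h2 := sum_bound c hc hjj (w ^ k) (B := τ ^ k) (by
      intro σ h1 h2 h3
      rw [map_pow, norm_pow]
      exact pow_le_pow_left₀ (norm_nonneg _) (hτ3 σ (by simp [O, h1, h2, h3])) _)
      (pow_nonneg (by linarith) _)
    rw [map_pow] at h2
    have h3 : 1 ≤ τ ^ k := one_le_pow₀ hτ1
    have h4 : -(|C0| * τ ^ k) ≤ C0 := by
      have h5 : |C0| * 1 ≤ |C0| * τ ^ k := mul_le_mul_of_nonneg_left h3 (abs_nonneg _)
      have h6 := neg_abs_le C0
      linarith
    rw [add_mul]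
    linarith
  exact hcj (by simpa using hfin)

end Pool.Agent.Lib.MP_ee3a40_co
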