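import Pool.Agent.Lib.MP_ee3a40_co.Univ

/-!
The universality theorem over the complex numbers and its corollaries.
-/

set_option autoImplicit false

open ComplexConjugate Filter Topology Polynomial IntermediateField

namespace Pool.Agent.Lib.MP_ee3a40_co

/-- `z` is a chromatic root -/
def IsRootC (z : ℂ) : Prop :=
  ∃ (m : ℕ) (G : SimpleGraph (Fin m)) (P : ℤ[X]), IsChrom G P ∧ aeval z P = 0

/-- **Universality.** A complex algebraic integer, not a natural number, all of whose real
conjugates are larger than two, is a chromatic root. -/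
theorem universality {β : ℂ} (hint : IsIntegral ℤ β) (hnat : ∀ m : ℕ, β ≠ m)
    (hreal : ∀ z : ℂ, aeval z (minpoly ℚ β) = 0 → z.im = 0 → 2 < z.re) : IsRootC β := by
  have hintQ : IsIntegral ℚ β := hint.tower_top
  have hfd : FiniteDimensional ℚ ℚ⟮β⟯ := adjoin.finiteDimensional hintQ
  let q : ℚ⟮β⟯ := AdjoinSimple.gen ℚ β
  have hqβ : algebraMap ℚ⟮β⟯ ℂ q = β := AdjoinSimple.algebraMap_gen ℚ β
  have hgen : ∀ σ τ : ℚ⟮β⟯ →ₐ[ℚ] ℂ, σ q = τ q → σ = τ := by
    intro σ τ h
    apply (adjoin.powerBasis hintQ).algHom_ext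
    rw [adjoin.powerBasis_gen]
    exact h
  have hq : ∀ m : ℕ, q ≠ m := by
    intro m h
    apply hnat m
    rw [← hqβ, h, map_natCast]
  have hreal' : ∀ σ : ℚ⟮β⟯ →ₐ[ℚ] ℂ, (σ q).im = 0 → 2 < (σ q).re := by
    intro σ h
    apply hreal _ _ h
    have h1 : aeval q (minpoly ℚ β) = 0 := by
      apply (algebraMap ℚ⟮β⟯ ℂ).injective
      rw [map_zero, ← aeval_algebraMap_apply, hqβ, minpoly.aeval]
    rw [aeval_algHom_apply, h1, map_zero]
  have hint' : IsIntegral ℤ q := by
    rw [← isIntegral_algebraMap_iff (R := ℤ) (A := ℚ⟮β⟯) (B := ℂ) (algebraMap ℚ⟮β⟯ ℂ).injective,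
      hqβ]
    exact hint
  obtain ⟨m, G, P, hP, h0⟩ := univ_field q hgen hq hreal' hint'
  refine ⟨m, G, P, hP, ?_⟩
  rw [← hqβ, aeval_algebraMap_apply, h0, map_zero]

/-- natural numbers are chromatic roots -/
theorem nat_root (m : ℕ) : IsRootC m := by
  obtain ⟨P, hP, -, -⟩ := exists_chrom (⊤ : SimpleGraph (Fin (m + 1)))
  refine ⟨m + 1, ⊤, P, hP, ?_⟩
  have h1 := hP m
  have h2 : Nat.card ((⊤ : SimpleGraph (Fin (m + 1))).Coloring (Fin m)) = 0 := by
    rw [card_coloring, Nat.card_eq_zero]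
    left
    constructor
    intro f
    have hinj : Function.Injective f.1 := by
      intro a b hab
      by_contra hne
      exact f.2 a b hne hab
    have := Fintype.card_le_of_injective _ hinj
    simp at this
  rw [h2] at h1
  have h3 : aeval ((m : ℤ) : ℂ) P = ((P.eval (m : ℤ) : ℤ) : ℂ) := by
    have := aeval_algebraMap_apply_eq_algebraMap_eval (A := ℂ) (m : ℤ) P
    simpa using this
  rw [Int.cast_natCast] at h3
  rw [h3, h1]
  simp

/-- a rational root of the minimal polynomial -/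
theorem eq_of_rat_root {β : ℂ} (h : IsIntegral ℚ β) {r : ℚ} (hr : aeval (r : ℂ) (minpoly ℚ β) = 0) :
    β = r := by
  have h1 : (minpoly ℚ β).IsRoot r := by
    have h2 : aeval (algebraMap ℚ ℂ r) (minpoly ℚ β) = algebraMap ℚ ℂ ((minpoly ℚ β).eval r) :=
      aeval_algebraMap_apply_eq_algebraMap_eval r _
    have h3 : algebraMap ℚ ℂ ((minpoly ℚ β).eval r) = 0 := by
      rw [← h2]; exact hr
    exact (algebraMap ℚ ℂ).injective (by rw [h3, map_zero])
  have := minpoly.root h h1
  rw [← this]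
  rfl

theorem alpha_n (α : ℂ) (h : ∃ m : ℕ, ∃ G : SimpleGraph (Fin m), ∃ P : ℤ[X],
    IsChrom G P ∧ aeval α P = 0) (n : ℕ) (hn : 0 < n) : IsRootC ((n : ℂ) * α) := by
  obtain ⟨m, G, P, hP, h0⟩ := h
  rcases Nat.lt_or_ge n 2 with h2 | h2
  · have : n = 1 := by omega
    subst this
    rw [Nat.cast_one, one_mul]
    exact ⟨m, G, P, hP, h0⟩
  obtain ⟨P', hP', hmon, -⟩ := exists_chrom G
  have hPP := hP.unique hP'
  have hn0 : (n : ℂ) ≠ 0 := Nat.cast_ne_zero.2 (by omega)
  have hα : IsIntegral ℤ α := ⟨P, hPP ▸ hmon, h0⟩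
  have hβ : IsIntegral ℤ ((n : ℂ) * α) := by
    have hnint : IsIntegral ℤ ((n : ℤ) : ℂ) :=
      isIntegral_algebraMap (R := ℤ) (A := ℂ) (x := (n : ℤ))
    rw [Int.cast_natCast] at hnint
    exact hnint.mul hα
  by_cases hnat : ∃ k : ℕ, (n : ℂ) * α = k
  · obtain ⟨k, hk⟩ := hnat
    rw [hk]; exact nat_root k
  push Not at hnat
  apply universality hβ hnat
  intro z hz him
  -- `z / n` is a root of `P`
  have hz' : aeval (z / n) P = 0 := by
    let R : ℚ[X] := (P.map (Int.castRingHom ℚ)).comp (C (1 / (n : ℚ)) * X)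
    have hR : ∀ w : ℂ, aeval w R = aeval (w / n) P := by
      intro w
      simp only [R, aeval_comp, map_mul, aeval_C, aeval_X]
      rw [show (Int.castRingHom ℚ) = algebraMap ℤ ℚ from rfl, aeval_map_algebraMap]
      congr 2
      simp
      field_simp
    have h1 : aeval ((n : ℂ) * α) R = 0 := by
      rw [hR, mul_div_cancel_left₀ _ hn0, h0]
    have h3 : minpoly ℚ ((n : ℂ) * α) ∣ R := minpoly.dvd _ _ h1
    obtain ⟨Q, hQ⟩ := h3
    rw [← hR, hQ, map_mul, hz, zero_mul]
  have hzre : z = (z.re : ℂ) := Complex.ext (by simp) (by simp [him])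
  have hx : aeval (z.re / n : ℝ) P = 0 := by
    have h1 : aeval (((z.re / n : ℝ) : ℂ)) P = 0 := by
      push_cast
      rw [← hzre]; exact hz'
    have h3 : aeval (algebraMap ℝ ℂ (z.re / n)) P = algebraMap ℝ ℂ (aeval (z.re / n) P) :=
      aeval_algebraMap_apply ℂ _ P
    have h4 : algebraMap ℝ ℂ (aeval (z.re / n) P) = 0 := by rw [← h3]; exact h1
    exact (algebraMap ℝ ℂ).injective (by rw [h4, map_zero])
  have hnr : (0 : ℝ) < n := by exact_mod_cast hn
  have h2r : (2 : ℝ) ≤ n := by exact_mod_cast h2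
  rcases real_root _ m (Fin m) G P (by simp) hP hx with h5 | h5
  · exfalso
    have h6 : z.re = 0 := by
      rcases div_eq_zero_iff.1 h5 with h | h
      · exact h
      · exact absurd h hnr.ne'
    apply hnat 0
    have := eq_of_rat_root (r := 0) hβ.tower_top (by
      rw [hzre, h6] at hz
      simpa using hz)
    rw [this]; simp
  · rcases eq_or_lt_of_le h5 with h6 | h6
    · exfalso
      have h7 : z.re = n := by
        rw [eq_div_iff hnr.ne'] at h6
        linarith
      apply hnat n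
      have := eq_of_rat_root (r := n) hβ.tower_top (by
        rw [hzre, h7] at hz
        simpa using hz)
      rw [this]; simp
    · rw [lt_div_iff₀ hnr] at h6
      linarith

theorem alpha_plus_n (α : ℂ) (hα : IsIntegral ℤ α) : ∃ n : ℤ, IsRootC (α + (n : ℂ)) := by
  by_cases hz : ∃ k : ℤ, α = k
  · obtain ⟨k, rfl⟩ := hz
    refine ⟨-k, ?_⟩
    have := nat_root 0
    simpa using this
  push Not at hz
  have hfin := (minpoly ℚ α).rootSet_finite ℂ
  obtain ⟨N, hN⟩ : ∃ N : ℕ, ∀ z ∈ (minpoly ℚ α).rootSet ℂ, 2 < z.re + N := by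
    obtain ⟨B, hB⟩ := (hfin.image (fun z : ℂ => 2 - z.re)).bddAbove
    obtain ⟨N, hN⟩ := exists_nat_gt B
    refine ⟨N, fun z hz => ?_⟩
    have := hB ⟨z, hz, rfl⟩
    simp only at this
    linarith
  refine ⟨N, ?_⟩
  have hNint : IsIntegral ℤ ((N : ℤ) : ℂ) :=
    isIntegral_algebraMap (R := ℤ) (A := ℂ) (x := (N : ℤ))
  apply universality (hα.add hNint)
  · intro m hm
    apply hz ((m : ℤ) - N)
    push_cast at hm ⊢
    linear_combination hm
  · intro z hz0 him
    have h1 : aeval (z - N) (minpoly ℚ α) = 0 := by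
      let R : ℚ[X] := (minpoly ℚ α).comp (X - C (N : ℚ))
      have hR : ∀ w : ℂ, aeval w R = aeval (w - N) (minpoly ℚ α) := by
        intro w
        simp [R, aeval_comp]
      have h2 : aeval (α + ((N : ℤ) : ℂ)) R = 0 := by
        rw [hR]
        have : α + ((N : ℤ) : ℂ) - N = α := by push_cast; ring
        rw [this, minpoly.aeval]
      obtain ⟨Q, hQ⟩ := minpoly.dvd ℚ _ h2
      rw [← hR, hQ, map_mul, hz0, zero_mul]
    have h2 : z - N ∈ (minpoly ℚ α).rootSet ℂ := by
      rw [mem_rootSet]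
      exact ⟨minpoly.ne_zero hα.tower_top, h1⟩
    have h3 := hN _ h2
    simp at h3
    exact h3

/-- the imaginary unit is a chromatic root -/
theorem I_root : IsRootC Complex.I := by
  have h1 : (Complex.I : ℂ) - 2 ≠ 0 := by
    intro h
    have := congrArg Complex.im h
    simp at this
  have r2 := rat_join (q := Complex.I) (rat_one (Complex.I - 1)) h1
  have e2 : (Complex.I - 1) / (Complex.I - 2) * 1 = (3 - Complex.I) / 5 := by
    rw [mul_one, div_eq_div_iff h1 (by norm_num)]
    linear_combination Complex.I_sq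
  rw [e2] at r2
  have h2 : (3 - Complex.I) / 5 + (Complex.I - 2) ≠ 0 := by
    intro h
    have := congrArg Complex.im h
    simp at this
    norm_num at this
  have r3 := rat_series r2 h2
  have e3 : (Complex.I - 1) / ((3 - Complex.I) / 5 + (Complex.I - 2)) =
      5 * (Complex.I - 1) / (4 * Complex.I - 7) := by
    rw [div_eq_div_iff h2 (by
      intro h
      have := congrArg Complex.im h
      simp at this)]
    ring
  rw [e3] at r3
  have h3 : (4 * Complex.I - 7 : ℂ) ≠ 0 := by
    intro h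
    have := congrArg Complex.im h
    simp at this
  have e4 : 5 * (Complex.I - 1) / (4 * Complex.I - 7) + (Complex.I - 2) =
      (5 - 10 * Complex.I) / (4 * Complex.I - 7) := by
    rw [eq_div_iff h3, add_mul, div_mul_cancel₀ _ h3]
    linear_combination 4 * Complex.I_sq
  have h5 : (5 - 10 * Complex.I : ℂ) ≠ 0 := by
    intro h
    have := congrArg Complex.im h
    simp at this
  have h4 : 5 * (Complex.I - 1) / (4 * Complex.I - 7) + (Complex.I - 2) ≠ 0 := by
    rw [e4]
    exact div_ne_zero h5 h3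
  have r4 := rat_series r3 h4
  have e5 : (Complex.I - 1) / (5 * (Complex.I - 1) / (4 * Complex.I - 7) + (Complex.I - 2)) =
      1 - Complex.I / 5 := by
    rw [e4, div_div_eq_mul_div, div_eq_iff h5]
    linear_combination 2 * Complex.I_sq
  rw [e5] at r4
  apply root_of_ratios (N := 5) (fun _ => 1 - Complex.I / 5) (fun _ => r4)
  simp
  ring

end Pool.Agent.Lib.MP_ee3a40_co
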