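import Pool.Agent.Lib.MP_ee3a40_co.Chrom

/-!
Two-terminal gadgets and their ratios.
-/

set_option autoImplicit false

open Polynomial

namespace Pool.Agent.Lib.MP_ee3a40_co

/-- colourings of a gadget avoiding `i` on `S` and `j` on `T` -/
def GCol {U : Type} (H : SimpleGraph U) (S T : Set U) (C : Type) (i j : C) : Type :=
  {f : U → C // (∀ u v, H.Adj u v → f u ≠ f v) ∧ (∀ u ∈ S, f u ≠ i) ∧ (∀ u ∈ T, f u ≠ j)}

instance {U : Type} [Finite U] (H : SimpleGraph U) (S T : Set U) (C : Type) [Finite C] (i j : C) :
    Finite (GCol H S T C i j) := Subtype.finite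

/-- the gadget polynomials -/
structure IsGad {U : Type} (H : SimpleGraph U) (S T : Set U) (a b : ℤ[X]) : Prop where
  eq : ∀ (C : Type) [Finite C] (i : C), (Nat.card (GCol H S T C i i) : ℤ) =
    a.eval (Nat.card C : ℤ)
  ne : ∀ (C : Type) [Finite C] (i j : C), i ≠ j → (Nat.card (GCol H S T C i j) : ℤ) =
    b.eval (Nat.card C : ℤ)

/-- there is a gadget with extension polynomials `a` (equal terminals) and `b` -/
def Gad (a b : ℤ[X]) : Prop :=
  ∃ (U : Type) (_ : Finite U) (H : SimpleGraph U) (S T : Set U), IsGad H S T a b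

theorem Gad.one : Gad 1 1 := by
  refine ⟨Empty, inferInstance, ⊥, ∅, ∅, ?_, ?_⟩
  · intro C _ i
    have : Nat.card (GCol (⊥ : SimpleGraph Empty) ∅ ∅ C i i) = 1 := by
      rw [Nat.card_eq_one_iff_unique]
      refine ⟨⟨fun f g => ?_⟩, ⟨⟨fun v => v.elim, fun v => v.elim, fun v => v.elim,
        fun v => v.elim⟩⟩⟩
      apply Subtype.ext
      funext v
      exact v.elim
    rw [this]; simp
  · intro C _ i j _
    have : Nat.card (GCol (⊥ : SimpleGraph Empty) ∅ ∅ C i j) = 1 := by
      rw [Nat.card_eq_one_iff_unique]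
      refine ⟨⟨fun f g => ?_⟩, ⟨⟨fun v => v.elim, fun v => v.elim, fun v => v.elim,
        fun v => v.elim⟩⟩⟩
      apply Subtype.ext
      funext v
      exact v.elim
    rw [this]; simp

/-- disjoint union of graphs -/
def sumG {U U' : Type} (H : SimpleGraph U) (H' : SimpleGraph U') : SimpleGraph (U ⊕ U') where
  Adj := fun x y => match x, y with
    | Sum.inl u, Sum.inl v => H.Adj u v
    | Sum.inr u, Sum.inr v => H'.Adj u v
    | _, _ => False
  symm := ⟨fun x y h => match x, y, h with
    | Sum.inl _, Sum.inl _, h => SimpleGraph.Adj.symm (G := H) h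
    | Sum.inr _, Sum.inr _, h => SimpleGraph.Adj.symm (G := H') h⟩
  loopless := ⟨fun x h => match x, h with
    | Sum.inl _, h => H.irrefl h
    | Sum.inr _, h => H'.irrefl h⟩

theorem card_sum {U U' : Type} (H : SimpleGraph U) (H' : SimpleGraph U') (S T : Set U)
    (S' T' : Set U') (C : Type) (i j : C) :
    Nat.card (GCol (sumG H H') (Sum.elim S S') (Sum.elim T T') C i j) =
      Nat.card (GCol H S T C i j) * Nat.card (GCol H' S' T' C i j) := by
  rw [← Nat.card_prod]
  apply Nat.card_congr
  exact
    { toFun := fun f => (⟨fun u => f.1 (Sum.inl u), fun u v h => f.2.1 _ _ h,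
        fun u hu => f.2.2.1 _ hu, fun u hu => f.2.2.2 _ hu⟩,
        ⟨fun u => f.1 (Sum.inr u), fun u v h => f.2.1 _ _ h,
        fun u hu => f.2.2.1 _ hu, fun u hu => f.2.2.2 _ hu⟩)
      invFun := fun p => ⟨Sum.elim p.1.1 p.2.1, by
        refine ⟨?_, ?_, ?_⟩
        · intro u v h
          rcases u with u | u <;> rcases v with v | v
          · exact p.1.2.1 _ _ h
          · exact absurd h id
          · exact absurd h id
          · exact p.2.2.1 _ _ h
        · intro u h
          rcases u with u | u
          · exact p.1.2.2.1 _ h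
          · exact p.2.2.2.1 _ h
        · intro u h
          rcases u with u | u
          · exact p.1.2.2.2 _ h
          · exact p.2.2.2.2 _ h⟩
      left_inv := by
        intro f
        apply Subtype.ext
        funext u
        rcases u with u | u <;> rfl
      right_inv := fun p => rfl }

/-- parallel composition -/
theorem Gad.mul {a b a' b' : ℤ[X]} (h : Gad a b) (h' : Gad a' b') :
    Gad (a * a') (b * b') := by
  obtain ⟨U, _, H, S, T, hU⟩ := h
  obtain ⟨U', _, H', S', T', hU'⟩ := h'
  refine ⟨U ⊕ U', inferInstance, sumG H H', Sum.elim S S', Sum.elim T T', ?_, ?_⟩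
  · intro C _ i
    rw [card_sum, Nat.cast_mul, hU.eq, hU'.eq, eval_mul]
  · intro C _ i j hij
    rw [card_sum, Nat.cast_mul, hU.ne _ _ _ hij, hU'.ne _ _ _ hij, eval_mul]

/-- add a vertex adjacent to `T` -/
def optG {U : Type} (H : SimpleGraph U) (T : Set U) : SimpleGraph (Option U) where
  Adj := fun a b => match a, b with
    | none, none => False
    | none, some w => w ∈ T
    | some w, none => w ∈ T
    | some w, some w' => H.Adj w w'
  symm := ⟨fun a b h => match a, b, h with
    | none, some _, h => h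
    | some _, none, h => h
    | some _, some _, h => SimpleGraph.Adj.symm (G := H) h⟩
  loopless := ⟨fun a h => match a, h with
    | some _, h => H.irrefl h⟩

/-- the set `{none}` -/
def setNone {U : Type} : Set (Option U) := {x | x = none}
/-- the image of a set under `some` -/
def setSome {U : Type} (S : Set U) : Set (Option U) := {x | ∃ u ∈ S, x = some u}

theorem card_series {U : Type} [Finite U] (H : SimpleGraph U) (S T : Set U) (C : Type) [Fintype C]
    [DecidableEq C] (i j : C) :
    Nat.card (GCol (optG H T) (setSome S) setNone C i j) =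
      ∑ c : {c : C // c ≠ j}, Nat.card (GCol H S T C i c.1) := by
  rw [← Nat.card_sigma]
  apply Nat.card_congr
  exact
    { toFun := fun f => ⟨⟨f.1 none, f.2.2.2 none rfl⟩, ⟨fun u => f.1 (some u),
        fun u v h => f.2.1 _ _ h, fun u hu => f.2.2.1 _ ⟨u, hu, rfl⟩,
        fun u hu => f.2.1 (some u) none hu⟩⟩
      invFun := fun p => ⟨fun x => match x with
        | none => p.1.1
        | some u => p.2.1 u, by
        refine ⟨?_, ?_, ?_⟩
        · intro u v h
          cases u <;> cases v
          · exact absurd h id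
          · exact (p.2.2.2.2 _ h).symm
          · exact p.2.2.2.2 _ h
          · exact p.2.2.1 _ _ h
        · rintro x ⟨u, hu, rfl⟩
          exact p.2.2.2.1 u hu
        · rintro x hx
          cases hx
          exact p.1.2⟩
      left_inv := by
        intro f
        apply Subtype.ext
        funext u
        cases u <;> rfl
      right_inv := fun p => rfl }

theorem card_ne {C : Type} [Finite C] (c : C) :
    (Nat.card {x : C // x ≠ c} : ℤ) = (Nat.card C : ℤ) - 1 := by
  classical
  have := Fintype.ofFinite C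
  have h := Fintype.card_subtype_compl (fun x => x = c)
  rw [Fintype.card_subtype_eq] at h
  have h2 : 0 < Fintype.card C := Fintype.card_pos_iff.2 ⟨c⟩
  rw [Nat.card_eq_fintype_card, Nat.card_eq_fintype_card]
  have h3 : Fintype.card {x : C // x ≠ c} = Fintype.card C - 1 := h
  rw [h3]
  push_cast [Nat.one_le_iff_ne_zero.2 h2.ne']
  rfl

/-- series composition with an edge -/
theorem Gad.series {a b : ℤ[X]} (h : Gad a b) : Gad ((X - 1) * b) (a + (X - 2) * b) := by
  classical
  obtain ⟨U, _, H, S, T, hU⟩ := h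
  refine ⟨Option U, inferInstance, optG H T, setSome S, setNone, ?_, ?_⟩
  · intro C _ i
    have := Fintype.ofFinite C
    rw [card_series]
    push_cast
    rw [Finset.sum_congr rfl (fun c _ => hU.ne C i c.1 (Ne.symm c.2)), Finset.sum_const,
      Finset.card_univ, nsmul_eq_mul, ← Nat.card_eq_fintype_card, card_ne]
    simp
  · intro C _ i j hij
    have := Fintype.ofFinite C
    rw [card_series]
    push_cast
    have h1 : ∀ c : {c : C // c ≠ j}, (Nat.card (GCol H S T C i c.1) : ℤ) =
        b.eval (Nat.card C : ℤ) + (if c = ⟨i, hij⟩ then a.eval (Nat.card C : ℤ) -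
          b.eval (Nat.card C : ℤ) else 0) := by
      intro c
      by_cases hc : c = ⟨i, hij⟩
      · rw [if_pos hc, hc, hU.eq]; ring
      · rw [if_neg hc, hU.ne C i c.1]
        · ring
        · intro h
          exact hc (Subtype.ext h.symm)
    rw [Finset.sum_congr rfl (fun c _ => h1 c), Finset.sum_add_distrib, Finset.sum_const,
      Finset.card_univ, nsmul_eq_mul, ← Nat.card_eq_fintype_card, card_ne,
      Finset.sum_ite_eq' Finset.univ, if_pos (Finset.mem_univ _)]
    simp only [eval_add, eval_mul, eval_sub, eval_X, eval_ofNat]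
    ring

theorem card_join {U : Type} [Finite U] (H : SimpleGraph U) (S T : Set U) (C : Type) [Fintype C]
    [DecidableEq C] (i j : C) :
    Nat.card (GCol (optG H Set.univ) (setSome S ∪ setNone) (setSome T ∪ setNone) C i j) =
      ∑ c : {c : C // c ≠ i ∧ c ≠ j}, Nat.card (GCol H S T {x : C // x ≠ c.1}
        ⟨i, c.2.1.symm⟩ ⟨j, c.2.2.symm⟩) := by
  rw [← Nat.card_sigma]
  apply Nat.card_congr
  exact
    { toFun := fun f => ⟨⟨f.1 none, f.2.2.1 none (Or.inr rfl), f.2.2.2 none (Or.inr rfl)⟩,
        ⟨fun u => ⟨f.1 (some u), f.2.1 (some u) none (Set.mem_univ u)⟩,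
        fun u v h h' => f.2.1 (some u) (some v) h (congrArg Subtype.val h'),
        fun u hu h' => f.2.2.1 _ (Or.inl ⟨u, hu, rfl⟩) (congrArg Subtype.val h'),
        fun u hu h' => f.2.2.2 _ (Or.inl ⟨u, hu, rfl⟩) (congrArg Subtype.val h')⟩⟩
      invFun := fun p => ⟨fun x => match x with
        | none => p.1.1
        | some u => (p.2.1 u).1, by
        refine ⟨?_, ?_, ?_⟩
        · intro u v h
          cases u <;> cases v
          · exact absurd h id
          · exact (p.2.1 _).2.symm
          · exact (p.2.1 _).2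
          · exact fun h' => p.2.2.1 _ _ h (Subtype.ext h')
        · rintro x (⟨u, hu, rfl⟩ | hx)
          · exact fun h' => p.2.2.2.1 u hu (Subtype.ext h')
          · cases hx
            exact p.1.2.1
        · rintro x (⟨u, hu, rfl⟩ | hx)
          · exact fun h' => p.2.2.2.2 u hu (Subtype.ext h')
          · cases hx
            exact p.1.2.2⟩
      left_inv := by
        intro f
        apply Subtype.ext
        funext u
        cases u <;> rfl
      right_inv := fun p => rfl }

/-- join with a vertex -/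
theorem Gad.join {a b : ℤ[X]} (h : Gad a b) :
    Gad ((X - 1) * a.comp (X - 1)) ((X - 2) * b.comp (X - 1)) := by
  classical
  obtain ⟨U, _, H, S, T, hU⟩ := h
  refine ⟨Option U, inferInstance, optG H Set.univ, setSome S ∪ setNone, setSome T ∪ setNone,
    ?_, ?_⟩
  · intro C _ i
    have := Fintype.ofFinite C
    rw [card_join]
    push_cast
    rw [Finset.sum_congr rfl (fun c _ => hU.eq {x : C // x ≠ c.1} ⟨i, c.2.1.symm⟩),
      Finset.sum_congr rfl (fun c _ => by rw [card_ne c.1]), Finset.sum_const,
      Finset.card_univ, nsmul_eq_mul, ← Nat.card_eq_fintype_card]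
    have e : Nat.card {c : C // c ≠ i ∧ c ≠ i} = Nat.card {c : C // c ≠ i} :=
      Nat.card_congr (Equiv.subtypeEquivRight (fun c => and_self_iff))
    rw [e, card_ne]
    simp [eval_comp]
  · intro C _ i j hij
    have := Fintype.ofFinite C
    rw [card_join]
    push_cast
    rw [Finset.sum_congr rfl (fun c _ => hU.ne {x : C // x ≠ c.1} ⟨i, c.2.1.symm⟩
      ⟨j, c.2.2.symm⟩ (fun h => hij (congrArg Subtype.val h))),
      Finset.sum_congr rfl (fun c _ => by rw [card_ne c.1]), Finset.sum_const,
      Finset.card_univ, nsmul_eq_mul, ← Nat.card_eq_fintype_card]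
    have e : (Nat.card {c : C // c ≠ i ∧ c ≠ j} : ℤ) = (Nat.card C : ℤ) - 2 := by
      have e1 : Nat.card {c : C // c ≠ i ∧ c ≠ j} =
          Nat.card {c : {c : C // c ≠ i} // c ≠ ⟨j, hij.symm⟩} :=
        Nat.card_congr
          { toFun := fun c => ⟨⟨c.1, c.2.1⟩, fun h => c.2.2 (congrArg Subtype.val h)⟩
            invFun := fun c => ⟨c.1.1, c.1.2, fun h => c.2 (Subtype.ext h)⟩
            left_inv := fun c => rfl
            right_inv := fun c => rfl }
      rw [e1, card_ne, card_ne]
      ring
    rw [e]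
    simp only [eval_mul, eval_sub, eval_X, eval_ofNat, eval_comp, eval_one]

section ratios

variable {K : Type*} [Field K]

/-- ratios of gadgets at `q` -/
def Rat' (q : K) : Set K :=
  {r | ∃ a b : ℤ[X], Gad a b ∧ aeval q b ≠ 0 ∧ aeval q a = r * aeval q b}

theorem rat_one (q : K) : (1 : K) ∈ Rat' q :=
  ⟨1, 1, Gad.one, by simp, by simp⟩

theorem rat_mul {q r s : K} (hr : r ∈ Rat' q) (hs : s ∈ Rat' q) : r * s ∈ Rat' q := by
  obtain ⟨a, b, h, h1, h2⟩ := hr
  obtain ⟨a', b', h', h1', h2'⟩ := hs
  refine ⟨a * a', b * b', h.mul h', ?_, ?_⟩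
  · rw [map_mul]; exact mul_ne_zero h1 h1'
  · rw [map_mul, map_mul, h2, h2']; ring

theorem rat_pow {q r : K} (hr : r ∈ Rat' q) (n : ℕ) : r ^ n ∈ Rat' q := by
  induction n with
  | zero => simpa using rat_one q
  | succ n ih => rw [pow_succ]; exact rat_mul ih hr

theorem rat_series {q r : K} (hr : r ∈ Rat' q) (h : r + (q - 2) ≠ 0) :
    (q - 1) / (r + (q - 2)) ∈ Rat' q := by
  obtain ⟨a, b, hg, h1, h2⟩ := hr
  have e : aeval q (a + (X - 2) * b) = (r + (q - 2)) * aeval q b := by
    rw [map_add, map_mul, map_sub, aeval_X, h2]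
    simp only [map_ofNat]
    ring
  refine ⟨(X - 1) * b, a + (X - 2) * b, hg.series, ?_, ?_⟩
  · rw [e]; exact mul_ne_zero h h1
  · rw [e, map_mul, map_sub, aeval_X, map_one]
    field_simp

theorem rat_join {q r : K} (hr : r ∈ Rat' (q - 1)) (h : q - 2 ≠ 0) :
    (q - 1) / (q - 2) * r ∈ Rat' q := by
  obtain ⟨a, b, hg, h1, h2⟩ := hr
  have e : ∀ p : ℤ[X], aeval q (p.comp (X - 1)) = aeval (q - 1) p := by
    intro p
    rw [aeval_comp]
    simp
  refine ⟨(X - 1) * a.comp (X - 1), (X - 2) * b.comp (X - 1), hg.join, ?_, ?_⟩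
  · rw [map_mul, e, map_sub, aeval_X, map_ofNat]
    exact mul_ne_zero h h1
  · have e1 : aeval q (X - 1 : ℤ[X]) = q - 1 := by rw [map_sub, aeval_X, map_one]
    have e2 : aeval q (X - 2 : ℤ[X]) = q - 2 := by rw [map_sub, aeval_X, map_ofNat]
    rw [map_mul, map_mul, e, e, e1, e2, h2]
    field_simp

/-- joining with a clique of size `m` -/
theorem rat_joins {q : K} (hq : ∀ m : ℕ, q ≠ m) (m : ℕ) {r : K} (hr : r ∈ Rat' (q - m)) :
    (q - 1) / (q - 1 - m) * r ∈ Rat' q := by
  induction m generalizing r with
  | zero =>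
    have h1 : q - 1 ≠ 0 := by
      have := hq 1
      rw [Nat.cast_one] at this
      exact sub_ne_zero.2 this
    simpa [div_self h1] using hr
  | succ m ih =>
    have h2 : q - m - 2 ≠ 0 := by
      have := hq (m + 2)
      intro h
      apply this
      push_cast
      linear_combination h
    have h1 : q - m - 1 ≠ 0 := by
      have := hq (m + 1)
      intro h
      apply this
      push_cast
      linear_combination h
    have h3 : r ∈ Rat' (q - m - 1) := by
      have : q - m - 1 = q - (m + 1 : ℕ) := by push_cast; ring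
      rw [this]; exact hr
    have h4 := ih (rat_join h3 h2)
    have e : (q - 1) / (q - 1 - (m + 1 : ℕ)) * r = (q - 1) / (q - 1 - m) *
        ((q - m - 1) / (q - m - 2) * r) := by
      have e1 : q - 1 - (m : K) = q - m - 1 := by ring
      have e2 : q - 1 - ((m + 1 : ℕ) : K) = q - m - 2 := by push_cast; ring
      rw [e1, e2]
      field_simp
    rw [e]; exact h4

end ratios

end Pool.Agent.Lib.MP_ee3a40_co
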