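import Pool.Agent.Lib.MP_ee3a40_co.Dual2
import Pool.Agent.Lib.MP_ee3a40_co.Cone

/-!
Universality: an algebraic integer which is not rational and whose real conjugates are all larger
than two is a chromatic root.
-/

set_option autoImplicit false

open ComplexConjugate Filter Topology Polynomial

namespace Pool.Agent.Lib.MP_ee3a40_co

variable {K : Type*} [Field K] [Algebra ℚ K] [FiniteDimensional ℚ K]

/-- coefficients at real embeddings vanish -/
theorem real_zero (q : K) (hgen : ∀ σ τ : K →ₐ[ℚ] ℂ, σ q = τ q → σ = τ)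
    (hq : ∀ m : ℕ, q ≠ m) (hreal : ∀ σ : K →ₐ[ℚ] ℂ, (σ q).im = 0 → 2 < (σ q).re)
    (c : (K →ₐ[ℚ] ℂ) → ℂ) (hc : ∀ σ, c (conjA σ) = conj (c σ))
    (C0 : ℝ) (H : ∀ r ∈ Rat' q, C0 ≤ ∑ σ, (c σ * σ r).re)
    (hnr : ∀ σ : K →ₐ[ℚ] ℂ, (σ q).im ≠ 0 → c σ = 0) : ∀ σ, c σ = 0 := by
  classical
  by_contra hcon
  push Not at hcon
  obtain ⟨σ0, hσ0⟩ := hcon
  let I : Finset (K →ₐ[ℚ] ℂ) := Finset.univ.filter (fun σ => c σ ≠ 0)
  have hI : I.Nonempty := ⟨σ0, by simp [I, hσ0]⟩
  obtain ⟨j, hjI, hjmin⟩ := I.exists_min_image (fun σ => (σ q).re) hI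
  have hcj : c j ≠ 0 := (Finset.mem_filter.1 hjI).2
  have himI : ∀ σ, c σ ≠ 0 → (σ q).im = 0 := by
    intro σ h
    by_contra h'
    exact h (hnr σ h')
  have hxj := hreal j (himI j hcj)
  have hq1 : q - 1 ≠ 0 := by
    have := hq 1
    rw [Nat.cast_one] at this
    exact sub_ne_zero.2 this
  have hq2 : q - 2 ≠ 0 := by
    have := hq 2
    rw [Nat.cast_ofNat] at this
    exact sub_ne_zero.2 this
  let g : K := (q - 1) / (q - 2)
  have hg : g ∈ Rat' q := by
    have := rat_join (q := q) (rat_one (q - 1)) hq2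
    rwa [mul_one] at this
  -- value at a real embedding
  have hval : ∀ σ : K →ₐ[ℚ] ℂ, (σ q).im = 0 → σ q = ((σ q).re : ℂ) := fun σ h =>
    Complex.ext (by simp) (by simp [h])
  have hgval : ∀ σ : K →ₐ[ℚ] ℂ, (σ q).im = 0 →
      σ g = ((((σ q).re - 1) / ((σ q).re - 2) : ℝ) : ℂ) := by
    intro σ h
    simp only [g, map_div₀, map_sub, map_one, map_ofNat]
    rw [hval σ h]
    push_cast
    simp
  let v : ℝ := ((j q).re - 1) / ((j q).re - 2)
  have hv1 : 1 < v := by
    simp only [v]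
    rw [lt_div_iff₀ (by linarith)]
    linarith
  have hlt : ∀ σ ∈ I.erase j, ‖σ g‖ < v := by
    intro σ hσ
    have hσj := Finset.ne_of_mem_erase hσ
    have hcσ : c σ ≠ 0 := (Finset.mem_filter.1 (Finset.mem_of_mem_erase hσ)).2
    have him := himI σ hcσ
    have hx := hreal σ him
    have h1 := hjmin σ (Finset.mem_of_mem_erase hσ)
    have h2 : (j q).re < (σ q).re := by
      apply lt_of_le_of_ne h1
      intro h
      apply hσj
      apply hgen
      rw [hval σ him, hval j (himI j hcj), h]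
    rw [hgval σ him, Complex.norm_real, Real.norm_eq_abs,
      abs_of_pos (div_pos (by linarith) (by linarith))]
    simp only [v]
    rw [div_lt_div_iff₀ (by linarith) (by linarith)]
    nlinarith
  obtain ⟨τ, hτ1, hτ2, hτ3⟩ := exists_between_finset (I.erase j) (fun σ : K →ₐ[ℚ] ℂ => ‖σ g‖)
    hv1 hlt
  -- the main inequality
  have key : ∀ h ∈ Rat' q, 0 ≤ (c j * j h).re := by
    intro h hh
    apply growth_real (v := v) (τ := τ) (M := |C0| + ∑ σ, ‖c σ * σ h‖) (by linarith) hτ2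
    intro k
    have h1 := H (h * g ^ k) (rat_mul hh (rat_pow hg k))
    have h2 : ∑ σ, (c σ * σ (h * g ^ k)).re = (c j * j h).re * v ^ k +
        ∑ σ ∈ Finset.univ.erase j, (c σ * σ (h * g ^ k)).re := by
      rw [← Finset.add_sum_erase Finset.univ _ (Finset.mem_univ j)]
      congr 1
      rw [map_mul, map_pow, hgval j (himI j hcj), ← mul_assoc, ← Complex.ofReal_pow,
        Complex.re_mul_ofReal]
    have h3 : ∑ σ ∈ Finset.univ.erase j, (c σ * σ (h * g ^ k)).re ≤
        ∑ σ, ‖c σ * σ h‖ * τ ^ k := by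
      refine (Finset.sum_le_sum (g := fun σ => ‖c σ * σ h‖ * τ ^ k) ?_).trans
        (Finset.sum_le_sum_of_subset_of_nonneg (Finset.subset_univ _) ?_)
      · intro σ hσ
        by_cases h0 : c σ = 0
        · simp [h0]
        · refine (Complex.re_le_norm _).trans ?_
          rw [map_mul, ← mul_assoc, norm_mul, map_pow, norm_pow]
          have h4 : σ ∈ I.erase j := Finset.mem_erase.2 ⟨Finset.ne_of_mem_erase hσ,
            Finset.mem_filter.2 ⟨Finset.mem_univ _, h0⟩⟩
          exact mul_le_mul_of_nonneg_left (pow_le_pow_left₀ (norm_nonneg _) (hτ3 σ h4) _)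
            (norm_nonneg _)
      · intro σ _ _
        exact mul_nonneg (norm_nonneg _) (pow_nonneg (by linarith) _)
    rw [← Finset.sum_mul] at h3
    have h5 : 1 ≤ τ ^ k := one_le_pow₀ hτ1
    have h6 : -(|C0| * τ ^ k) ≤ C0 := by
      have h5 : |C0| * 1 ≤ |C0| * τ ^ k := mul_le_mul_of_nonneg_left h5 (abs_nonneg _)
      have h6 := neg_abs_le C0
      linarith
    rw [add_mul]
    linarith
  have k1 := key 1 (rat_one q)
  rw [map_one, mul_one] at k1
  -- a leaf with a large clique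
  obtain ⟨b, hb⟩ := exists_nat_gt (j q).re
  have hleaf := key _ (rat_joins hq b (rat_one (q - b)))
  have hval2 : j ((q - 1) / (q - 1 - b) * 1) =
      ((((j q).re - 1) / ((j q).re - 1 - b) : ℝ) : ℂ) := by
    simp only [mul_one, map_div₀, map_sub, map_one, map_natCast]
    rw [hval j (himI j hcj)]
    push_cast
    simp
  rw [hval2, Complex.re_mul_ofReal] at hleaf
  have hneg : ((j q).re - 1) / ((j q).re - 1 - b) < 0 :=
    div_neg_of_pos_of_neg (by linarith) (by linarith)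
  have k2 : (c j).re ≤ 0 := by
    by_contra h
    push Not at h
    have := mul_neg_of_pos_of_neg h hneg
    linarith
  have hre : (c j).re = 0 := le_antisymm k2 k1
  have hconj : conjA j = j := by
    apply hgen
    rw [conjA_apply, hval j (himI j hcj), Complex.conj_ofReal]
  have him : (c j).im = 0 := by
    have := hc j
    rw [hconj] at this
    exact Complex.conj_eq_iff_im.1 this.symm
  exact hcj (Complex.ext hre him)

theorem dual_zero (q : K) (hgen : ∀ σ τ : K →ₐ[ℚ] ℂ, σ q = τ q → σ = τ)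
    (hq : ∀ m : ℕ, q ≠ m) (hreal : ∀ σ : K →ₐ[ℚ] ℂ, (σ q).im = 0 → 2 < (σ q).re)
    (Λ : K →ₗ[ℚ] ℝ) (hΛ : ∀ r ∈ Rat' q, 0 ≤ Λ (r - 1)) : Λ = 0 := by
  obtain ⟨c, hc, hcΛ⟩ := exists_coeffs Λ
  have H : ∀ r ∈ Rat' q, Λ 1 ≤ ∑ σ, (c σ * σ r).re := by
    intro r hr
    rw [← hcΛ]
    have := hΛ r hr
    rw [map_sub] at this
    linarith
  have h1 := nonreal_zero q hgen hq c hc (Λ 1) H
  have h2 := real_zero q hgen hq hreal c hc (Λ 1) H h1
  ext x
  rw [hcΛ x]
  simp [h2]

/-- the semigroup generated by all `r - 1` -/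
def Mon (q : K) : AddSubmonoid K := AddSubmonoid.closure {x | ∃ r ∈ Rat' q, x = r - 1}

theorem mon_neg (q : K) (hgen : ∀ σ τ : K →ₐ[ℚ] ℂ, σ q = τ q → σ = τ)
    (hq : ∀ m : ℕ, q ≠ m) (hreal : ∀ σ : K →ₐ[ℚ] ℂ, (σ q).im = 0 → 2 < (σ q).re)
    {x : K} (hx : x ∈ Mon q) : -x ∈ Mon q := by
  obtain ⟨k, hk, hk'⟩ := exists_nsmul_mem (Mon q) (by
    intro Λ hΛ
    apply dual_zero q hgen hq hreal
    intro r hr
    exact hΛ _ (AddSubmonoid.subset_closure ⟨r, hr, rfl⟩)) (-x)
  have h1 := (Mon q).nsmul_mem hx (k - 1)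
  have h2 := (Mon q).add_mem h1 hk'
  have e : (k - 1) • x + k • (-x) = -x := by
    obtain ⟨l, rfl⟩ : ∃ l, k = l + 1 := ⟨k - 1, by omega⟩
    rw [Nat.add_sub_cancel, succ_nsmul, smul_neg]
    abel
  rwa [e] at h2

theorem mon_mem (q : K) (hgen : ∀ σ τ : K →ₐ[ℚ] ℂ, σ q = τ q → σ = τ)
    (hq : ∀ m : ℕ, q ≠ m) (hreal : ∀ σ : K →ₐ[ℚ] ℂ, (σ q).im = 0 → 2 < (σ q).re)
    (hint : IsIntegral ℤ q) : -q ∈ Mon q := by
  have hneg : ∀ {x}, x ∈ Mon q → -x ∈ Mon q := fun hx => mon_neg q hgen hq hreal hx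
  have hzs : ∀ (z : ℤ) {x}, x ∈ Mon q → (z : K) * x ∈ Mon q := by
    intro z x hx
    rcases Int.eq_nat_or_neg z with ⟨n, rfl | rfl⟩
    · have := (Mon q).nsmul_mem hx n
      rw [nsmul_eq_mul] at this
      rwa [Int.cast_natCast]
    · have := hneg ((Mon q).nsmul_mem hx n)
      rw [nsmul_eq_mul] at this
      push_cast
      rwa [neg_mul]
  have hq2 : q - 2 ≠ 0 := by
    have := hq 2
    rw [Nat.cast_ofNat] at this
    exact sub_ne_zero.2 this
  set δ := q - 2 with hδ
  have hg : (q - 1) / (q - 2) ∈ Rat' q := by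
    have := rat_join (q := q) (rat_one (q - 1)) hq2
    rwa [mul_one] at this
  have hginv : (q - 1) / (q - 2) - 1 = δ⁻¹ := by
    have hq2' : q - 2 ≠ 0 := hq2
    rw [hδ, div_sub_one hq2', inv_eq_one_div]
    congr 1
    ring
  have hinv : δ⁻¹ ∈ Mon q := by
    rw [← hginv]
    exact AddSubmonoid.subset_closure ⟨_, hg, rfl⟩
  have hmul : ∀ x ∈ Mon q, δ⁻¹ * x ∈ Mon q := by
    intro x hx
    induction hx using AddSubmonoid.closure_induction with
    | mem x h =>
      obtain ⟨r, hr, rfl⟩ := h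
      have e : δ⁻¹ * (r - 1) = ((q - 1) / (q - 2) * r - 1) + -δ⁻¹ + -(r - 1) := by
        rw [← hginv]; ring
      rw [e]
      refine (Mon q).add_mem ((Mon q).add_mem ?_ (hneg hinv)) (hneg ?_)
      · exact AddSubmonoid.subset_closure ⟨_, rat_mul hg hr, rfl⟩
      · exact AddSubmonoid.subset_closure ⟨_, hr, rfl⟩
    | zero => rw [mul_zero]; exact (Mon q).zero_mem
    | add x y _ _ hx hy => rw [mul_add]; exact (Mon q).add_mem hx hy
  have hpow : ∀ k : ℕ, δ⁻¹ ^ (k + 1) ∈ Mon q := by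
    intro k
    induction k with
    | zero => simpa using hinv
    | succ k ih => rw [pow_succ']; exact hmul _ ih
  have hδint : IsIntegral ℤ δ := by
    rw [hδ]
    exact hint.sub (by
      have : IsIntegral ℤ ((2 : ℤ) : K) := isIntegral_algebraMap (R := ℤ) (A := K) (x := 2)
      simpa using this)
  obtain ⟨p, hp, hp0⟩ := hδint
  have hp0' : ∑ i ∈ Finset.range (p.natDegree + 1), (p.coeff i : K) * δ ^ i = 0 := by
    rw [eval₂_eq_sum_range] at hp0
    simpa using hp0
  rw [Finset.sum_range_succ, hp.coeff_natDegree, Int.cast_one, one_mul] at hp0'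
  have hone : (1 : K) ∈ Mon q := by
    have e : (1 : K) = -∑ i ∈ Finset.range p.natDegree, (p.coeff i : K) *
        δ⁻¹ ^ (p.natDegree - i) := by
      have h1 : ∑ i ∈ Finset.range p.natDegree, (p.coeff i : K) * δ⁻¹ ^ (p.natDegree - i) =
          δ⁻¹ ^ p.natDegree * ∑ i ∈ Finset.range p.natDegree, (p.coeff i : K) * δ ^ i := by
        rw [Finset.mul_sum]
        apply Finset.sum_congr rfl
        intro i hi
        rw [Finset.mem_range] at hi
        have h2 : δ⁻¹ ^ p.natDegree = δ⁻¹ ^ (p.natDegree - i) * δ⁻¹ ^ i := by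
          rw [← pow_add, Nat.sub_add_cancel hi.le]
        have h3 : δ⁻¹ ^ i * δ ^ i = 1 := by
          rw [← mul_pow, inv_mul_cancel₀ hq2, one_pow]
        rw [h2]
        linear_combination (-(p.coeff i : K) * δ⁻¹ ^ (p.natDegree - i)) * h3
      have h4 : δ⁻¹ ^ p.natDegree * δ ^ p.natDegree = 1 := by
        rw [← mul_pow, inv_mul_cancel₀ hq2, one_pow]
      rw [h1]
      linear_combination (δ⁻¹ ^ p.natDegree) * hp0' - h4
    rw [e]
    apply hneg
    apply (Mon q).sum_mem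
    intro i hi
    rw [Finset.mem_range] at hi
    apply hzs
    obtain ⟨k, hk⟩ : ∃ k, p.natDegree - i = k + 1 := ⟨p.natDegree - i - 1, by omega⟩
    rw [hk]; exact hpow k
  have hpow' : ∀ k : ℕ, δ⁻¹ ^ k ∈ Mon q := by
    intro k
    cases k with
    | zero => simpa using hone
    | succ k => exact hpow k
  have hdeg : 0 < p.natDegree := by
    rcases Nat.eq_zero_or_pos p.natDegree with h | h
    · rw [h] at hp0'
      simp at hp0'
    · exact h
  have hδm : δ ∈ Mon q := by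
    have e : δ = -∑ i ∈ Finset.range p.natDegree, (p.coeff i : K) *
        δ⁻¹ ^ (p.natDegree - 1 - i) := by
      have h1 : ∑ i ∈ Finset.range p.natDegree, (p.coeff i : K) * δ⁻¹ ^ (p.natDegree - 1 - i) =
          δ⁻¹ ^ (p.natDegree - 1) * ∑ i ∈ Finset.range p.natDegree, (p.coeff i : K) * δ ^ i := by
        rw [Finset.mul_sum]
        apply Finset.sum_congr rfl
        intro i hi
        rw [Finset.mem_range] at hi
        have h2 : δ⁻¹ ^ (p.natDegree - 1) = δ⁻¹ ^ (p.natDegree - 1 - i) * δ⁻¹ ^ i := by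
          rw [← pow_add, Nat.sub_add_cancel (by omega)]
        have h3 : δ⁻¹ ^ i * δ ^ i = 1 := by
          rw [← mul_pow, inv_mul_cancel₀ hq2, one_pow]
        rw [h2]
        linear_combination (-(p.coeff i : K) * δ⁻¹ ^ (p.natDegree - 1 - i)) * h3
      have h4 : δ⁻¹ ^ (p.natDegree - 1) * δ ^ p.natDegree = δ := by
        have h5 : δ ^ p.natDegree = δ ^ (p.natDegree - 1) * δ := by
          rw [← pow_succ, Nat.sub_add_cancel hdeg]
        rw [h5, ← mul_assoc, ← mul_pow, inv_mul_cancel₀ hq2, one_pow, one_mul]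
      rw [h1]
      linear_combination (δ⁻¹ ^ (p.natDegree - 1)) * hp0' - h4
    rw [e]
    apply hneg
    apply (Mon q).sum_mem
    intro i _
    exact hzs _ (hpow' _)
  have e : -q = -δ + (-1 + -1) := by rw [hδ]; ring
  rw [e]
  exact (Mon q).add_mem (hneg hδm) ((Mon q).add_mem (hneg hone) (hneg hone))

/-- universality inside a number field -/
theorem univ_field (q : K) (hgen : ∀ σ τ : K →ₐ[ℚ] ℂ, σ q = τ q → σ = τ)
    (hq : ∀ m : ℕ, q ≠ m) (hreal : ∀ σ : K →ₐ[ℚ] ℂ, (σ q).im = 0 → 2 < (σ q).re)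
    (hint : IsIntegral ℤ q) :
    ∃ (m : ℕ) (G : SimpleGraph (Fin m)) (P : ℤ[X]), IsChrom G P ∧ aeval q P = 0 := by
  obtain ⟨l, hl, hsum⟩ := AddSubmonoid.exists_list_of_mem_closure (mon_mem q hgen hq hreal hint)
  have h1 : ∀ i : Fin l.length, l.get i + 1 ∈ Rat' q := by
    intro i
    obtain ⟨r, hr, he⟩ := hl (l.get i) (List.get_mem l i)
    rw [he, sub_add_cancel]
    exact hr
  apply root_of_ratios (fun i : Fin l.length => l.get i + 1) h1
  simp only [add_sub_cancel_right]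
  rw [← hsum]
  conv_rhs => rw [← List.ofFn_get l]
  rw [List.sum_ofFn]

end Pool.Agent.Lib.MP_ee3a40_co
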